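import Mathlib

set_option autoImplicit false

open scoped ENNReal

namespace Pool.Agent.TH184.HS

section

variable {E F : Type} [NormedAddCommGroup E] [InnerProductSpace ℂ E]
  [NormedAddCommGroup F] [InnerProductSpace ℂ F]

theorem completeSpace_of_hilbertBasis {ι : Type} (e : HilbertBasis ι ℂ E) : CompleteSpace E := by
  exact e.repr.toIsometryEquiv.completeSpace

/-- Parseval in `ℝ≥0∞` -/
theorem parseval {ι : Type} (e : HilbertBasis ι ℂ E) (x : E) :
    ∑' i, ENNReal.ofReal (‖(inner ℂ (e i) x : ℂ)‖ ^ 2) = ENNReal.ofReal (‖x‖ ^ 2) := by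
  have h := e.hasSum_inner_mul_inner x x
  have h2 : HasSum (fun i => ((‖(inner ℂ (e i) x : ℂ)‖ ^ 2 : ℝ) : ℂ)) ((‖x‖ ^ 2 : ℝ) : ℂ) := by
    have e1 : (inner ℂ x x : ℂ) = ((‖x‖ ^ 2 : ℝ) : ℂ) := by
      rw [inner_self_eq_norm_sq_to_K]; push_cast; rfl
    rw [e1] at h
    have hfun : (fun i => ((‖(inner ℂ (e i) x : ℂ)‖ ^ 2 : ℝ) : ℂ)) =
        fun i => (inner ℂ x (e i) : ℂ) * inner ℂ (e i) x := by
      funext i
      rw [← inner_conj_symm x (e i), ← Complex.normSq_eq_norm_sq, Complex.normSq_eq_conj_mul_self]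
    rw [hfun]
    exact h
  have h3 : HasSum (fun i => ‖(inner ℂ (e i) x : ℂ)‖ ^ 2) (‖x‖ ^ 2) := by
    exact_mod_cast h2
  rw [← h3.tsum_eq, ENNReal.ofReal_tsum_of_nonneg (fun i => by positivity) h3.summable]

/-- The Hilbert-Schmidt sum over an orthonormal family is at most the one over a basis. -/
theorem hs_bound [CompleteSpace F] (T : E →L[ℂ] F) {ι : Type} (e : HilbertBasis ι ℂ E)
    (hs : Summable fun k => ‖T (e k)‖ ^ 2) {J : Type} {v : J → E} (hv : Orthonormal ℂ v)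
    (s : Finset J) : ∑ j ∈ s, ‖T (v j)‖ ^ 2 ≤ ∑' k, ‖T (e k)‖ ^ 2 := by
  have : CompleteSpace E := completeSpace_of_hilbertBasis e
  obtain ⟨w, h, _⟩ := exists_hilbertBasis ℂ F
  have key : ∑ j ∈ s, ENNReal.ofReal (‖T (v j)‖ ^ 2) ≤
      ∑' k, ENNReal.ofReal (‖T (e k)‖ ^ 2) := by
    calc ∑ j ∈ s, ENNReal.ofReal (‖T (v j)‖ ^ 2)
        = ∑ j ∈ s, ∑' i, ENNReal.ofReal (‖(inner ℂ (h i) (T (v j)) : ℂ)‖ ^ 2) := by
          refine Finset.sum_congr rfl fun j _ => (parseval h _).symm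
      _ = ∑' i, ∑ j ∈ s, ENNReal.ofReal (‖(inner ℂ (h i) (T (v j)) : ℂ)‖ ^ 2) :=
          (Summable.tsum_finsetSum fun _ _ => ENNReal.summable).symm
      _ ≤ ∑' i, ∑' k, ENNReal.ofReal (‖(inner ℂ (h i) (T (e k)) : ℂ)‖ ^ 2) := by
          refine ENNReal.tsum_le_tsum fun i => ?_
          have h1 : ∀ x : E, (inner ℂ (h i) (T x) : ℂ) =
              inner ℂ (ContinuousLinearMap.adjoint T (h i)) x := fun x => by
            rw [ContinuousLinearMap.adjoint_inner_left]
          simp_rw [h1]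
          rw [← ENNReal.ofReal_sum_of_nonneg (fun j _ => by positivity)]
          have h2 : ∀ x : E, ‖(inner ℂ (ContinuousLinearMap.adjoint T (h i)) x : ℂ)‖ =
              ‖(inner ℂ x (ContinuousLinearMap.adjoint T (h i)) : ℂ)‖ := fun x =>
            norm_inner_symm _ _
          simp_rw [h2]
          rw [parseval e]
          apply ENNReal.ofReal_le_ofReal
          exact hv.sum_inner_products_le _
      _ = ∑' k, ∑' i, ENNReal.ofReal (‖(inner ℂ (h i) (T (e k)) : ℂ)‖ ^ 2) :=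
          ENNReal.tsum_comm
      _ = ∑' k, ENNReal.ofReal (‖T (e k)‖ ^ 2) := by
          refine tsum_congr fun k => parseval h _
  rw [← ENNReal.ofReal_sum_of_nonneg (fun j _ => by positivity),
    ← ENNReal.ofReal_tsum_of_nonneg (fun i => by positivity) hs] at key
  rwa [ENNReal.ofReal_le_ofReal_iff (tsum_nonneg fun i => by positivity)] at key

end

end Pool.Agent.TH184.HS
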