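import Mathlib

set_option autoImplicit false

open MeasureTheory Set Filter
open scoped ComplexConjugate ENNReal Topology

namespace Pool.Agent.TH184.HS

/-- The rotation of `ℂ^n` by the angles `θ_1, …, θ_n`. -/
noncomputable def rotate {n : ℕ} (θ : Fin n → ℝ) (z : Fin n → ℂ) : Fin n → ℂ :=
  fun i => Complex.exp (θ i * Complex.I) * z i

/-- A Reinhardt domain: a nonempty connected open set invariant under all rotations of the
coordinates. -/
structure IsReinhardtDomain {n : ℕ} (Ω : Set (Fin n → ℂ)) : Prop where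
  isOpen : IsOpen Ω
  isConnected : IsConnected Ω
  rotate_mem : ∀ (θ : Fin n → ℝ) (z : Fin n → ℂ), z ∈ Ω → rotate θ z ∈ Ω

/-- The Hilbert space `L²(Ω)` with respect to Lebesgue measure. -/
abbrev L2 {n : ℕ} (Ω : Set (Fin n → ℂ)) : Type :=
  Lp ℂ 2 ((volume : Measure (Fin n → ℂ)).restrict Ω)

/-- The Bergman space `A²(Ω)`: the square integrable holomorphic functions on `Ω`. -/
noncomputable def bergman {n : ℕ} (Ω : Set (Fin n → ℂ)) : Submodule ℂ (L2 Ω) where
  carrier := {u | ∃ g : (Fin n → ℂ) → ℂ, DifferentiableOn ℂ g Ω ∧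
    (u : (Fin n → ℂ) → ℂ) =ᵐ[volume.restrict Ω] g}
  add_mem' := by
    rintro u v ⟨g, hg, hug⟩ ⟨h, hh, hvh⟩
    refine ⟨fun z => g z + h z, hg.add hh, ?_⟩
    filter_upwards [Lp.coeFn_add u v, hug, hvh] with z h1 h2 h3
    rw [h1, Pi.add_apply, h2, h3]
  zero_mem' := ⟨fun _ => 0, differentiableOn_const 0, Lp.coeFn_zero _ _ _⟩
  smul_mem' := by
    rintro c u ⟨g, hg, hug⟩
    refine ⟨fun z => c • g z, hg.const_smul c, ?_⟩
    filter_upwards [Lp.coeFn_smul c u, hug] with z h1 h2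
    rw [h1, Pi.smul_apply, h2]

/-- The domain of `H_{\bar f}`: the `u ∈ A²(Ω)` with `\bar f u ∈ L²(Ω)`. -/
def hankelDomain {n : ℕ} (Ω : Set (Fin n → ℂ)) (f : (Fin n → ℂ) → ℂ) : Set (bergman Ω) :=
  {u | MemLp (fun z => conj (f z) * (u : L2 Ω) z) 2 (volume.restrict Ω)}

/-- `H_{\bar f} u = (I - P)(\bar f u)`, where `I - P` is the orthogonal projection of `L²(Ω)` onto
the orthogonal complement of `A²(Ω)`. -/
noncomputable def hankel {n : ℕ} (Ω : Set (Fin n → ℂ)) (f : (Fin n → ℂ) → ℂ) (u : bergman Ω)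
    (hu : u ∈ hankelDomain Ω f) : L2 Ω :=
  (bergman Ω)ᗮ.starProjection (MemLp.toLp (fun z => conj (f z) * (u : L2 Ω) z) hu)

/-- `T` is a Hilbert-Schmidt operator: `∑ ‖T e_k‖² < ∞` for an orthonormal (Hilbert) basis
`(e_k)`. -/
def IsHilbertSchmidt {E F : Type} [NormedAddCommGroup E] [InnerProductSpace ℂ E]
    [NormedAddCommGroup F] [InnerProductSpace ℂ F] (T : E →L[ℂ] F) : Prop :=
  ∃ (ι : Type) (e : HilbertBasis ι ℂ E), Summable fun k => ‖T (e k)‖ ^ 2

/-- `H_{\bar f}` is Hilbert-Schmidt: its domain is dense in `A²(Ω)` and it extends to a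
Hilbert-Schmidt operator `A²(Ω) → L²(Ω)`. -/
structure HankelHS {n : ℕ} (Ω : Set (Fin n → ℂ)) (f : (Fin n → ℂ) → ℂ) : Prop where
  dense : Dense (hankelDomain Ω f)
  extension : ∃ T : bergman Ω →L[ℂ] L2 Ω,
    (∀ (u : bergman Ω) (hu : u ∈ hankelDomain Ω f), T u = hankel Ω f u hu) ∧ IsHilbertSchmidt T

end Pool.Agent.TH184.HS
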