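import Mathlib
import Pool.Agent.TH184.HS.Defs

set_option autoImplicit false

open MeasureTheory Set Filter
open scoped ComplexConjugate ENNReal Topology

namespace Pool.Agent.TH184.HS

variable {n : ℕ}

/-- The torus. -/
abbrev Tor (n : ℕ) : Type := UnitAddTorus (Fin n)

/-- The invariant probability measure of the torus. -/
noncomputable def tm (n : ℕ) : Measure (Tor n) :=
  Measure.pi (fun _ : Fin n => (AddCircle.haarAddCircle : Measure UnitAddCircle))

instance : IsProbabilityMeasure (tm n) := by unfold tm; infer_instance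
instance : (tm n).IsAddHaarMeasure := by unfold tm; infer_instance

/-- The action of the torus on `ℂ^n`. -/
noncomputable def act (t : Tor n) (z : Fin n → ℂ) : Fin n → ℂ := fun i => fourier 1 (t i) * z i

theorem norm_act (t : Tor n) (z : Fin n → ℂ) (i : Fin n) : ‖act t z i‖ = ‖z i‖ := by
  simp [act]

theorem act_add (s t : Tor n) (z : Fin n → ℂ) : act (s + t) z = act s (act t z) := by
  funext i
  simp only [act, Pi.add_apply, fourier_one, AddCircle.toCircle_add, Circle.coe_mul]
  ring

theorem act_zero (z : Fin n → ℂ) : act (0 : Tor n) z = z := by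
  funext i
  simp [act]

theorem act_neg_act (t : Tor n) (z : Fin n → ℂ) : act (-t) (act t z) = z := by
  rw [← act_add, neg_add_cancel, act_zero]

theorem act_act_neg (t : Tor n) (z : Fin n → ℂ) : act t (act (-t) z) = z := by
  rw [← act_add, add_neg_cancel, act_zero]

theorem continuous_act : Continuous fun p : Tor n × (Fin n → ℂ) => act p.1 p.2 := by
  unfold act
  fun_prop

theorem continuous_act_right (t : Tor n) : Continuous (act t) :=
  continuous_act.comp (continuous_const.prodMk continuous_id)

theorem continuous_act_left (z : Fin n → ℂ) : Continuous fun t : Tor n => act t z :=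
  continuous_act.comp (continuous_id.prodMk continuous_const)

theorem act_eq_rotate (x : Fin n → ℝ) (z : Fin n → ℂ) :
    act (fun i => (x i : UnitAddCircle)) z = rotate (fun i => 2 * Real.pi * x i) z := by
  funext i
  simp only [act, rotate, fourier_coe_apply]
  congr 2
  push_cast
  ring

theorem act_mem {Ω : Set (Fin n → ℂ)} (hΩ : IsReinhardtDomain Ω) (t : Tor n) {z : Fin n → ℂ}
    (hz : z ∈ Ω) : act t z ∈ Ω := by
  have h : ∀ i, ∃ x : ℝ, (x : UnitAddCircle) = t i := fun i => QuotientAddGroup.mk_surjective (t i)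
  choose x hx using h
  have h2 : t = fun i => (x i : UnitAddCircle) := funext fun i => (hx i).symm
  rw [h2, act_eq_rotate]
  exact hΩ.rotate_mem _ _ hz

theorem act_mem_iff {Ω : Set (Fin n → ℂ)} (hΩ : IsReinhardtDomain Ω) (t : Tor n)
    {z : Fin n → ℂ} : act t z ∈ Ω ↔ z ∈ Ω := by
  constructor
  · intro h
    have := act_mem hΩ (-t) h
    rwa [act_neg_act] at this
  · exact act_mem hΩ t

/-- Laurent monomials -/
noncomputable def mono (β : Fin n → ℤ) (z : Fin n → ℂ) : ℂ := ∏ i, z i ^ β i

theorem fourier_one_zpow (x : UnitAddCircle) (k : ℤ) : (fourier 1 x : ℂ) ^ k = fourier k x := by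
  rw [fourier_one, fourier_apply, AddCircle.toCircle_zsmul, Circle.coe_zpow]

theorem mono_act (β : Fin n → ℤ) (t : Tor n) (z : Fin n → ℂ) :
    mono β (act t z) = UnitAddTorus.mFourier β t * mono β z := by
  simp only [mono, act, UnitAddTorus.mFourier, ContinuousMap.coe_mk]
  rw [← Finset.prod_mul_distrib]
  refine Finset.prod_congr rfl fun i _ => ?_
  rw [mul_zpow, fourier_one_zpow]

theorem mono_add {β γ : Fin n → ℤ} {z : Fin n → ℂ} (hz : ∀ i, z i ≠ 0) :
    mono (β + γ) z = mono β z * mono γ z := by
  simp only [mono, Pi.add_apply]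
  rw [← Finset.prod_mul_distrib]
  exact Finset.prod_congr rfl fun i _ => zpow_add₀ (hz i) _ _

theorem mono_ne_zero {β : Fin n → ℤ} {z : Fin n → ℂ} (hz : ∀ i, z i ≠ 0) : mono β z ≠ 0 :=
  Finset.prod_ne_zero_iff.2 fun i _ => zpow_ne_zero _ (hz i)

theorem mono_zero (z : Fin n → ℂ) : mono 0 z = 1 := by simp [mono]

theorem norm_mono (β : Fin n → ℤ) (z : Fin n → ℂ) : ‖mono β z‖ = ∏ i, ‖z i‖ ^ β i := by
  simp [mono, norm_prod]

theorem norm_mFourier_apply (β : Fin n → ℤ) (t : Tor n) : ‖UnitAddTorus.mFourier β t‖ = 1 := by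
  simp only [UnitAddTorus.mFourier, ContinuousMap.coe_mk, norm_prod, fourier_apply,
    Circle.norm_coe, Finset.prod_const_one]

/-- The `β`-component of a function. -/
noncomputable def comp (β : Fin n → ℤ) (u : (Fin n → ℂ) → ℂ) (z : Fin n → ℂ) : ℂ :=
  ∫ t, UnitAddTorus.mFourier (-β) t * u (act t z) ∂(tm n)

theorem mFourier_add_apply (β : Fin n → ℤ) (s t : Tor n) :
    UnitAddTorus.mFourier β (s + t) = UnitAddTorus.mFourier β s * UnitAddTorus.mFourier β t := by
  simp only [UnitAddTorus.mFourier, ContinuousMap.coe_mk, Pi.add_apply]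
  rw [← Finset.prod_mul_distrib]
  refine Finset.prod_congr rfl fun i _ => ?_
  simp [fourier_apply, smul_add, AddCircle.toCircle_add]

theorem mFourier_neg_mul (β : Fin n → ℤ) (s : Tor n) :
    UnitAddTorus.mFourier β s * UnitAddTorus.mFourier (-β) s = 1 := by
  rw [← UnitAddTorus.mFourier_add, add_neg_cancel, UnitAddTorus.mFourier_zero]
  rfl

theorem comp_act (β : Fin n → ℤ) (u : (Fin n → ℂ) → ℂ) (s : Tor n) (z : Fin n → ℂ) :
    comp β u (act s z) = UnitAddTorus.mFourier β s * comp β u z := by
  have h1 : comp β u z =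
      ∫ t, UnitAddTorus.mFourier (-β) (t + s) * u (act (t + s) z) ∂(tm n) :=
    (integral_add_right_eq_self (μ := tm n)
      (fun t => UnitAddTorus.mFourier (-β) t * u (act t z)) s).symm
  rw [h1, comp, ← integral_const_mul]
  refine integral_congr_ae (Eventually.of_forall fun t => ?_)
  simp only
  rw [act_add, mFourier_add_apply]
  have h2 := mFourier_neg_mul β s
  calc UnitAddTorus.mFourier (-β) t * u (act t (act s z))
      = (UnitAddTorus.mFourier β s * UnitAddTorus.mFourier (-β) s) *
        (UnitAddTorus.mFourier (-β) t * u (act t (act s z))) := by rw [h2, one_mul]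
    _ = _ := by ring

theorem measurePreserving_act (t : Tor n) :
    MeasurePreserving (act t) (volume : Measure (Fin n → ℂ)) volume := by
  have h1 : ∀ i, MeasurePreserving (fun z : ℂ => (fourier 1 (t i) : ℂ) * z) volume volume := by
    intro i
    have := (rotation (AddCircle.toCircle (t i))).measurePreserving
    have h2 : (fun z : ℂ => (fourier 1 (t i) : ℂ) * z) = ⇑(rotation (AddCircle.toCircle (t i))) := by
      funext z
      rw [fourier_one, rotation_apply]
    rw [h2]
    exact this
  exact volume_preserving_pi h1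

theorem measurePreserving_act_restrict {Ω : Set (Fin n → ℂ)} (hΩ : IsReinhardtDomain Ω)
    (t : Tor n) :
    MeasurePreserving (act t) (volume.restrict Ω : Measure (Fin n → ℂ)) (volume.restrict Ω) := by
  have h := (measurePreserving_act t).restrict_preimage hΩ.isOpen.measurableSet
  have h2 : act t ⁻¹' Ω = Ω := by
    ext z
    exact act_mem_iff hΩ t
  rwa [h2] at h

end Pool.Agent.TH184.HS
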