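import Mathlib
import Pool.Agent.TH184.HS.Torus

set_option autoImplicit false

open MeasureTheory Set Filter Metric
open scoped ComplexConjugate ENNReal Topology Real

namespace Pool.Agent.TH184.HS

variable {n : ℕ}

theorem mFourier_single (β : Fin n → ℤ) (i : Fin n) (x : UnitAddCircle) :
    UnitAddTorus.mFourier β (Pi.single i x : Tor n) = fourier (β i) x := by
  simp only [UnitAddTorus.mFourier, ContinuousMap.coe_mk]
  rw [Finset.prod_eq_single i]
  · simp
  · intro j _ hj
    rw [Pi.single_eq_of_ne hj]
    simp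
  · simp

theorem act_single_update (i : Fin n) (x : UnitAddCircle) (z : Fin n → ℂ) (v : ℂ) :
    act (Pi.single i x : Tor n) (Function.update z i v) =
      Function.update z i (fourier 1 x * v) := by
  funext j
  by_cases h : j = i
  · subst h
    simp [act]
  · simp [act, Pi.single_eq_of_ne h, Function.update_of_ne h]

theorem continuousOn_act_update {Ω : Set (Fin n → ℂ)} (hΩ : IsReinhardtDomain Ω)
    {g : (Fin n → ℂ) → ℂ} (hg : ContinuousOn g Ω) (z : Fin n → ℂ) (i : Fin n) {S : Set ℂ}
    (hS : ∀ v ∈ S, Function.update z i v ∈ Ω) :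
    ContinuousOn (fun p : Tor n × ℂ => g (act p.1 (Function.update z i p.2))) (univ ×ˢ S) := by
  apply hg.comp
  · apply Continuous.continuousOn
    have h0 : Continuous fun p : Tor n × ℂ => (Function.update z i p.2 : Fin n → ℂ) :=
      continuous_const.update i continuous_snd
    have h1 : Continuous fun p : Tor n × ℂ =>
        ((p.1, Function.update z i p.2) : Tor n × (Fin n → ℂ)) := continuous_fst.prodMk h0
    exact continuous_act.comp h1
  · rintro ⟨t, v⟩ ⟨_, hv⟩
    exact act_mem hΩ t (hS v hv)

/-- the circle average of the integrand -/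
theorem circle_swap {Ω : Set (Fin n → ℂ)} (hΩ : IsReinhardtDomain Ω)
    {g : (Fin n → ℂ) → ℂ} (hg : ContinuousOn g Ω) (β : Fin n → ℤ) (z : Fin n → ℂ) (i : Fin n)
    {ρ : ℝ} (hρ : 0 < ρ) (hS : ∀ v ∈ sphere (0 : ℂ) ρ, Function.update z i v ∈ Ω) :
    ∫ t, UnitAddTorus.mFourier (-β) t * (∮ v in C(0, ρ), (v - 0)⁻¹ •
      (v ^ (-(β i)) * g (act t (Function.update z i v)))) ∂(tm n) =
    2 * π * Complex.I * ((ρ : ℂ) ^ (-(β i)) * comp β g (Function.update z i (ρ : ℂ))) := by
  have hρ' : (ρ : ℂ) ≠ 0 := by exact_mod_cast hρ.ne'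
  have hcm : ∀ θ : ℝ, circleMap 0 ρ θ ≠ 0 := fun θ => circleMap_ne_center hρ.ne'
  have hmem : ∀ θ : ℝ, circleMap 0 ρ θ ∈ sphere (0 : ℂ) ρ := fun θ =>
    circleMap_mem_sphere 0 hρ.le θ
  -- rewrite the circle integral
  have h1 : ∀ t : Tor n, (∮ v in C(0, ρ), (v - 0)⁻¹ •
      (v ^ (-(β i)) * g (act t (Function.update z i v)))) =
      ∫ θ in Ioc 0 (2 * π), Complex.I * ((circleMap 0 ρ θ) ^ (-(β i)) *
        g (act t (Function.update z i (circleMap 0 ρ θ)))) := by
    intro t
    rw [circleIntegral, intervalIntegral.integral_of_le (by positivity)]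
    refine integral_congr_ae (Eventually.of_forall fun θ => ?_)
    simp only [deriv_circleMap, sub_zero, smul_eq_mul]
    have := hcm θ
    field_simp
  simp_rw [h1]
  -- joint continuity
  have hcont : ContinuousOn (fun p : Tor n × ℝ => UnitAddTorus.mFourier (-β) p.1 *
      (Complex.I * ((circleMap 0 ρ p.2) ^ (-(β i)) *
        g (act p.1 (Function.update z i (circleMap 0 ρ p.2)))))) (univ ×ˢ univ) := by
    apply ContinuousOn.mul
    · exact ((UnitAddTorus.mFourier (-β)).continuous.comp continuous_fst).continuousOn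
    · apply ContinuousOn.mul continuousOn_const
      apply ContinuousOn.mul
      · apply Continuous.continuousOn
        apply Continuous.zpow₀
        · exact (continuous_circleMap 0 ρ).comp continuous_snd
        · intro p
          exact Or.inl (hcm p.2)
      · have h2 := continuousOn_act_update hΩ hg z i (S := sphere (0 : ℂ) ρ) hS
        have h3 : ContinuousOn (fun p : Tor n × ℝ => ((p.1, circleMap 0 ρ p.2) : Tor n × ℂ))
            (univ ×ˢ univ) :=
          (continuous_fst.prodMk ((continuous_circleMap 0 ρ).comp continuous_snd)).continuousOn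
        exact h2.comp h3 (fun p _ => ⟨mem_univ _, hmem p.2⟩)
  have hcont2 : Continuous (fun p : Tor n × ℝ => UnitAddTorus.mFourier (-β) p.1 *
      (Complex.I * ((circleMap 0 ρ p.2) ^ (-(β i)) *
        g (act p.1 (Function.update z i (circleMap 0 ρ p.2)))))) := by
    rw [univ_prod_univ] at hcont
    exact continuousOn_univ.1 hcont
  have hint : Integrable (Function.uncurry fun (t : Tor n) (θ : ℝ) =>
      UnitAddTorus.mFourier (-β) t *
      (Complex.I * ((circleMap 0 ρ θ) ^ (-(β i)) *
        g (act t (Function.update z i (circleMap 0 ρ θ))))))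
      ((tm n).prod (volume.restrict (Ioc 0 (2 * π)))) := by
    have h4 : IntegrableOn (fun p : Tor n × ℝ => UnitAddTorus.mFourier (-β) p.1 *
      (Complex.I * ((circleMap 0 ρ p.2) ^ (-(β i)) *
        g (act p.1 (Function.update z i (circleMap 0 ρ p.2)))))) (univ ×ˢ Icc 0 (2 * π))
        ((tm n).prod volume) :=
      hcont2.continuousOn.integrableOn_compact (isCompact_univ.prod isCompact_Icc)
    have h5 := h4.mono_set (prod_mono (Subset.refl univ) (Ioc_subset_Icc_self))
    rw [IntegrableOn, ← Measure.prod_restrict, Measure.restrict_univ] at h5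
    exact h5
  have h6 : ∀ t : Tor n, UnitAddTorus.mFourier (-β) t *
      ∫ θ in Ioc 0 (2 * π), Complex.I * ((circleMap 0 ρ θ) ^ (-(β i)) *
        g (act t (Function.update z i (circleMap 0 ρ θ)))) =
      ∫ θ in Ioc 0 (2 * π), UnitAddTorus.mFourier (-β) t *
        (Complex.I * ((circleMap 0 ρ θ) ^ (-(β i)) *
        g (act t (Function.update z i (circleMap 0 ρ θ))))) := by
    intro t
    exact (integral_const_mul _ _).symm
  simp_rw [h6]
  rw [integral_integral_swap hint]
  have h7 : ∀ θ : ℝ, ∫ t, UnitAddTorus.mFourier (-β) t *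
        (Complex.I * ((circleMap 0 ρ θ) ^ (-(β i)) *
        g (act t (Function.update z i (circleMap 0 ρ θ))))) ∂(tm n) =
      Complex.I * ((ρ : ℂ) ^ (-(β i)) * comp β g (Function.update z i (ρ : ℂ))) := by
    intro θ
    have e1 : ∫ t, UnitAddTorus.mFourier (-β) t *
        (Complex.I * ((circleMap 0 ρ θ) ^ (-(β i)) *
        g (act t (Function.update z i (circleMap 0 ρ θ))))) ∂(tm n) =
        Complex.I * ((circleMap 0 ρ θ) ^ (-(β i)) *
          comp β g (Function.update z i (circleMap 0 ρ θ))) := by
      rw [comp, ← integral_const_mul, ← integral_const_mul]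
      refine integral_congr_ae (Eventually.of_forall fun t => ?_)
      simp only
      ring
    rw [e1]
    have e2 : circleMap 0 ρ θ = fourier 1 ((θ / (2 * π) : ℝ) : UnitAddCircle) * (ρ : ℂ) := by
      rw [circleMap_zero, fourier_coe_apply, mul_comm]
      congr 2
      push_cast
      have : (π : ℂ) ≠ 0 := by exact_mod_cast Real.pi_ne_zero
      field_simp
    have e3 : Function.update z i (circleMap 0 ρ θ) =
        act (Pi.single i ((θ / (2 * π) : ℝ) : UnitAddCircle) : Tor n)
          (Function.update z i (ρ : ℂ)) := by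
      rw [act_single_update, e2]
    rw [e3, comp_act, mFourier_single, e2, mul_zpow, fourier_one_zpow]
    have e4 : (fourier (-(β i)) ((θ / (2 * π) : ℝ) : UnitAddCircle) : ℂ) *
        fourier (β i) ((θ / (2 * π) : ℝ) : UnitAddCircle) = 1 := by
      rw [← fourier_add, neg_add_cancel, fourier_zero]
    calc _ = Complex.I * ((fourier (-(β i)) ((θ / (2 * π) : ℝ) : UnitAddCircle) : ℂ) *
        fourier (β i) ((θ / (2 * π) : ℝ) : UnitAddCircle)) *
        ((ρ : ℂ) ^ (-(β i)) * comp β g (Function.update z i (ρ : ℂ))) := by ring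
      _ = _ := by rw [e4]; ring
  simp_rw [h7]
  rw [setIntegral_const]
  simp only [Measure.real, Real.volume_Ioc, sub_zero]
  rw [ENNReal.toReal_ofReal (by positivity)]
  simp only [Complex.real_smul]
  push_cast
  ring

/-- The `β`-component of a holomorphic function is a multiple of the monomial along each
coordinate. -/
theorem comp_update {Ω : Set (Fin n → ℂ)} (hΩ : IsReinhardtDomain Ω)
    {g : (Fin n → ℂ) → ℂ} (hg : DifferentiableOn ℂ g Ω) (β : Fin n → ℤ) (z : Fin n → ℂ)
    (i : Fin n) {r R : ℝ} (hr : 0 < r) (hrR : r ≤ R)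
    (hS : ∀ v ∈ closedBall (0 : ℂ) R \ ball 0 r, Function.update z i v ∈ Ω) :
    (R : ℂ) ^ (-(β i)) * comp β g (Function.update z i (R : ℂ)) =
      (r : ℂ) ^ (-(β i)) * comp β g (Function.update z i (r : ℂ)) := by
  have hR : 0 < R := hr.trans_le hrR
  have hSR : ∀ v ∈ sphere (0 : ℂ) R, Function.update z i v ∈ Ω := by
    intro v hv
    refine hS v ⟨sphere_subset_closedBall hv, ?_⟩
    rw [mem_sphere_zero_iff_norm] at hv
    rw [mem_ball_zero_iff, hv]
    exact not_lt.2 hrR
  have hSr : ∀ v ∈ sphere (0 : ℂ) r, Function.update z i v ∈ Ω := by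
    intro v hv
    rw [mem_sphere_zero_iff_norm] at hv
    refine hS v ⟨?_, ?_⟩
    · rw [mem_closedBall_zero_iff, hv]; exact hrR
    · rw [mem_ball_zero_iff, hv]; exact lt_irrefl _
  have h1 := circle_swap hΩ hg.continuousOn β z i hR hSR
  have h2 := circle_swap hΩ hg.continuousOn β z i hr hSr
  have h3 : ∀ t : Tor n, (∮ v in C(0, R), (v - 0)⁻¹ •
      (v ^ (-(β i)) * g (act t (Function.update z i v)))) =
      (∮ v in C(0, r), (v - 0)⁻¹ •
      (v ^ (-(β i)) * g (act t (Function.update z i v)))) := by
    intro t
    have hne : ∀ v ∈ closedBall (0 : ℂ) R \ ball 0 r, v ≠ 0 := by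
      intro v hv h0
      rw [h0] at hv
      exact hv.2 (mem_ball_self hr)
    refine Complex.circleIntegral_sub_center_inv_smul_eq_of_differentiable_on_annulus_off_countable
      hr hrR countable_empty ?_ ?_
    · apply ContinuousOn.mul
      · intro v hv
        exact (continuousAt_zpow₀ v _ (Or.inl (hne v hv))).continuousWithinAt
      · have h4 := continuousOn_act_update hΩ hg.continuousOn z i hS
        exact h4.comp (f := fun v : ℂ => ((t, v) : Tor n × ℂ))
          (continuous_const.prodMk continuous_id).continuousOn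
          (fun v hv => ⟨mem_univ _, hv⟩)
    · intro v hv
      have hv' : v ∈ closedBall (0 : ℂ) R \ ball 0 r :=
        ⟨ball_subset_closedBall hv.1.1, fun h => hv.1.2 (ball_subset_closedBall h)⟩
      apply DifferentiableAt.mul
      · exact differentiableAt_zpow.2 (Or.inl (hne v hv'))
      · have hd : DifferentiableAt ℂ g (act t (Function.update z i v)) :=
          (hg _ (act_mem hΩ t (hS v hv'))).differentiableAt
            (hΩ.isOpen.mem_nhds (act_mem hΩ t (hS v hv')))
        have hd2 : DifferentiableAt ℂ (fun v : ℂ => act t (Function.update z i v)) v := by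
          rw [differentiableAt_pi]
          intro j
          simp only [act]
          apply DifferentiableAt.const_mul
          by_cases hj : j = i
          · subst hj
            simp only [Function.update_self]
            exact differentiableAt_id
          · simp only [Function.update_of_ne hj]
            exact differentiableAt_const _
        exact hd.comp v hd2
  simp_rw [h3] at h1
  rw [h1] at h2
  have hpi : (2 * π * Complex.I : ℂ) ≠ 0 := Complex.two_pi_I_ne_zero
  exact mul_left_cancel₀ hpi h2

end Pool.Agent.TH184.HS
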