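import Mathlib
import Pool.Agent.TH184.HS.Annulus

set_option autoImplicit false

open MeasureTheory Set Filter Metric
open scoped ComplexConjugate ENNReal Topology Real

namespace Pool.Agent.TH184.HS

variable {n : ℕ}

/-- rotate `p` to the argument of `z` -/
theorem exists_angle (z p : ℂ) : ∃ s : UnitAddCircle, ‖z - fourier 1 s * p‖ = |‖z‖ - ‖p‖| := by
  refine ⟨(((z.arg - p.arg) / (2 * π) : ℝ) : UnitAddCircle), ?_⟩
  have h1 : (fourier 1 ((((z.arg - p.arg) / (2 * π) : ℝ)) : UnitAddCircle) : ℂ) =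
      Complex.exp ((z.arg - p.arg : ℝ) * Complex.I) := by
    rw [fourier_coe_apply]
    congr 1
    push_cast
    have : (π : ℂ) ≠ 0 := by exact_mod_cast Real.pi_ne_zero
    field_simp
  rw [h1]
  have h2 : Complex.exp ((z.arg - p.arg : ℝ) * Complex.I) * p =
      ‖p‖ * Complex.exp (z.arg * Complex.I) := by
    have e0 : (z.arg : ℂ) * Complex.I =
        (z.arg - p.arg : ℝ) * Complex.I + (p.arg : ℂ) * Complex.I := by
      push_cast
      ring
    calc Complex.exp ((z.arg - p.arg : ℝ) * Complex.I) * p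
        = Complex.exp ((z.arg - p.arg : ℝ) * Complex.I) *
          (‖p‖ * Complex.exp (p.arg * Complex.I)) := by rw [Complex.norm_mul_exp_arg_mul_I]
      _ = ‖p‖ * (Complex.exp ((z.arg - p.arg : ℝ) * Complex.I) *
          Complex.exp (p.arg * Complex.I)) := by ring
      _ = ‖p‖ * Complex.exp (z.arg * Complex.I) := by
          rw [← Complex.exp_add, ← e0]
  rw [h2]
  have h3 : z - ‖p‖ * Complex.exp (z.arg * Complex.I) =
      ((‖z‖ - ‖p‖ : ℝ) : ℂ) * Complex.exp (z.arg * Complex.I) := by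
    calc z - ‖p‖ * Complex.exp (z.arg * Complex.I)
        = ‖z‖ * Complex.exp (z.arg * Complex.I) - ‖p‖ * Complex.exp (z.arg * Complex.I) := by
          rw [Complex.norm_mul_exp_arg_mul_I]
      _ = _ := by push_cast; ring
  rw [h3, norm_mul, Complex.norm_exp_ofReal_mul_I, mul_one, Complex.norm_real, Real.norm_eq_abs]

/-- every point is in the orbit of its modulus vector -/
theorem exists_act_eq (z : Fin n → ℂ) : ∃ t : Tor n, act t (fun i => ((‖z i‖ : ℝ) : ℂ)) = z := by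
  have h : ∀ i, ∃ s : UnitAddCircle, ‖z i - fourier 1 s * ((‖z i‖ : ℝ) : ℂ)‖ = 0 := by
    intro i
    obtain ⟨s, hs⟩ := exists_angle (z i) ((‖z i‖ : ℝ) : ℂ)
    refine ⟨s, ?_⟩
    rw [hs]
    simp
  choose t ht using h
  refine ⟨t, funext fun i => ?_⟩
  have := ht i
  rw [norm_eq_zero, sub_eq_zero] at this
  exact this.symm

/-- A Reinhardt neighbourhood. -/
theorem exists_nhd {Ω : Set (Fin n → ℂ)} (hΩ : IsReinhardtDomain Ω) {p : Fin n → ℂ}
    (hp : p ∈ Ω) : ∃ ε > 0, ∀ z : Fin n → ℂ, (∀ i, |‖z i‖ - ‖p i‖| < ε) → z ∈ Ω := by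
  have hK : IsCompact (range fun t : Tor n => act t p) := isCompact_range (continuous_act_left p)
  have hKΩ : (range fun t : Tor n => act t p) ⊆ Ω := by
    rintro _ ⟨t, rfl⟩
    exact act_mem hΩ t hp
  obtain ⟨ε, hε, hsub⟩ := hK.exists_thickening_subset_open hΩ.isOpen hKΩ
  refine ⟨ε, hε, fun z hz => hsub ?_⟩
  choose t ht using fun i => exists_angle (z i) (p i)
  rw [mem_thickening_iff]
  refine ⟨act t p, ⟨t, rfl⟩, ?_⟩
  rw [dist_pi_lt_iff hε]
  intro i
  rw [dist_eq_norm]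
  simp only [act]
  rw [ht i]
  exact hz i

theorem isOpen_modNhd (p : Fin n → ℂ) (ε : ℝ) :
    IsOpen {z : Fin n → ℂ | ∀ i, |‖z i‖ - ‖p i‖| < ε} := by
  simp only [Set.ofPred_forall]
  refine isOpen_iInter_of_finite fun i => ?_
  exact isOpen_lt (by fun_prop) continuous_const

/-- quotient of the component by the monomial -/
noncomputable def quo (β : Fin n → ℤ) (g : (Fin n → ℂ) → ℂ) (z : Fin n → ℂ) : ℂ :=
  mono (-β) z * comp β g z

theorem quo_act (β : Fin n → ℤ) (g : (Fin n → ℂ) → ℂ) (t : Tor n) (z : Fin n → ℂ) :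
    quo β g (act t z) = quo β g z := by
  unfold quo
  rw [mono_act, comp_act]
  have h := mFourier_neg_mul β t
  calc _ = (UnitAddTorus.mFourier β t * UnitAddTorus.mFourier (-β) t) *
        (mono (-β) z * comp β g z) := by ring
    _ = _ := by rw [h, one_mul]

theorem mono_update [DecidableEq (Fin n)] (β : Fin n → ℤ) (z : Fin n → ℂ) (i : Fin n) (v : ℂ) :
    mono β (Function.update z i v) = v ^ β i * ∏ j ∈ Finset.univ.erase i, z j ^ β j := by
  unfold mono
  rw [← Finset.mul_prod_erase Finset.univ _ (Finset.mem_univ i)]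
  rw [Function.update_self]
  congr 1
  refine Finset.prod_congr rfl fun j hj => ?_
  rw [Function.update_of_ne (Finset.ne_of_mem_erase hj)]

theorem quo_update_le {Ω : Set (Fin n → ℂ)} (hΩ : IsReinhardtDomain Ω)
    {g : (Fin n → ℂ) → ℂ} (hg : DifferentiableOn ℂ g Ω) (β : Fin n → ℤ) (z : Fin n → ℂ)
    (i : Fin n) {r R : ℝ} (hr : 0 < r) (hrR : r ≤ R)
    (hS : ∀ v : ℂ, r ≤ ‖v‖ → ‖v‖ ≤ R → Function.update z i v ∈ Ω) :
    quo β g (Function.update z i (R : ℂ)) = quo β g (Function.update z i (r : ℂ)) := by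
  have h := comp_update hΩ hg β z i hr hrR (by
    intro v hv
    have h1 := hv.1
    have h2 := hv.2
    rw [mem_closedBall_zero_iff] at h1
    rw [mem_ball_zero_iff, not_lt] at h2
    exact hS v h2 h1)
  unfold quo
  rw [mono_update, mono_update, Pi.neg_apply]
  calc _ = (∏ j ∈ Finset.univ.erase i, z j ^ (-β) j) *
        ((R : ℂ) ^ (-(β i)) * comp β g (Function.update z i (R : ℂ))) := by ring
    _ = (∏ j ∈ Finset.univ.erase i, z j ^ (-β) j) *
        ((r : ℂ) ^ (-(β i)) * comp β g (Function.update z i (r : ℂ))) := by rw [h]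
    _ = _ := by ring

theorem quo_update {Ω : Set (Fin n → ℂ)} (hΩ : IsReinhardtDomain Ω)
    {g : (Fin n → ℂ) → ℂ} (hg : DifferentiableOn ℂ g Ω) (β : Fin n → ℤ) (z : Fin n → ℂ)
    (i : Fin n) {r R : ℝ} (hr : 0 < r) (hR : 0 < R)
    (hS : ∀ v : ℂ, min r R ≤ ‖v‖ → ‖v‖ ≤ max r R → Function.update z i v ∈ Ω) :
    quo β g (Function.update z i (R : ℂ)) = quo β g (Function.update z i (r : ℂ)) := by
  rcases le_total r R with h | h
  · refine quo_update_le hΩ hg β z i hr h ?_
    rwa [min_eq_left h, max_eq_right h] at hS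
  · refine (quo_update_le hΩ hg β z i hR h ?_).symm
    rwa [min_eq_right h, max_eq_left h] at hS

theorem quo_local {Ω : Set (Fin n → ℂ)} (hΩ : IsReinhardtDomain Ω)
    {g : (Fin n → ℂ) → ℂ} (hg : DifferentiableOn ℂ g Ω) (β : Fin n → ℤ) {p : Fin n → ℂ}
    {ε : ℝ} (hε : ∀ z : Fin n → ℂ, (∀ i, |‖z i‖ - ‖p i‖| < ε) → z ∈ Ω)
    {z w : Fin n → ℂ} (hz : ∀ i, |‖z i‖ - ‖p i‖| < ε) (hz0 : ∀ i, z i ≠ 0)
    (hw : ∀ i, |‖w i‖ - ‖p i‖| < ε) (hw0 : ∀ i, w i ≠ 0) : quo β g z = quo β g w := by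
  classical
  obtain ⟨t, ht⟩ := exists_act_eq z
  obtain ⟨s, hs⟩ := exists_act_eq w
  rw [← ht, ← hs, quo_act, quo_act]
  set a : Fin n → ℂ := fun i => ((‖z i‖ : ℝ) : ℂ) with ha
  set b : Fin n → ℂ := fun i => ((‖w i‖ : ℝ) : ℂ) with hb
  have key : ∀ S : Finset (Fin n), quo β g (S.piecewise b a) = quo β g a := by
    intro S
    induction S using Finset.induction_on with
    | empty => simp
    | insert j S hj ih =>
      rw [Finset.piecewise_insert, ← ih]
      have e1 : S.piecewise b a = Function.update (S.piecewise b a) j ((‖z j‖ : ℝ) : ℂ) := by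
        have : (S.piecewise b a) j = ((‖z j‖ : ℝ) : ℂ) := by
          rw [Finset.piecewise_eq_of_notMem _ _ _ hj]
        rw [← this, Function.update_eq_self]
      conv_rhs => rw [e1]
      have e2 : b j = ((‖w j‖ : ℝ) : ℂ) := rfl
      rw [e2]
      refine quo_update hΩ hg β _ j (norm_pos_iff.2 (hz0 j)) (norm_pos_iff.2 (hw0 j)) ?_
      intro v hv1 hv2
      apply hε
      intro i
      by_cases hij : i = j
      · subst hij
        rw [Function.update_self]
        have h1 := abs_lt.1 (hz i)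
        have h2 := abs_lt.1 (hw i)
        rw [abs_lt]
        constructor
        · rcases le_total ‖z i‖ ‖w i‖ with h | h
          · rw [min_eq_left h] at hv1; linarith
          · rw [min_eq_right h] at hv1; linarith
        · rcases le_total ‖z i‖ ‖w i‖ with h | h
          · rw [max_eq_right h] at hv2; linarith
          · rw [max_eq_left h] at hv2; linarith
      · rw [Function.update_of_ne hij]
        by_cases hiS : i ∈ S
        · rw [Finset.piecewise_eq_of_mem _ _ _ hiS, hb]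
          simpa using hw i
        · rw [Finset.piecewise_eq_of_notMem _ _ _ hiS, ha]
          simpa using hz i
  have := key Finset.univ
  rw [Finset.piecewise_univ] at this
  exact this.symm

theorem dense_star : Dense {z : Fin n → ℂ | ∀ i, z i ≠ 0} := by
  have h : Dense (Set.pi univ (fun _ : Fin n => ({0}ᶜ : Set ℂ))) :=
    dense_pi univ fun i _ => dense_compl_singleton (0 : ℂ)
  convert h using 1
  ext z
  simp

/-- The `β`-component of a holomorphic function on a Reinhardt domain is a multiple of the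
monomial `z^β`. -/
theorem exists_coeff {Ω : Set (Fin n → ℂ)} (hΩ : IsReinhardtDomain Ω)
    {g : (Fin n → ℂ) → ℂ} (hg : DifferentiableOn ℂ g Ω) (β : Fin n → ℤ) :
    ∃ c : ℂ, ∀ z ∈ Ω, (∀ i, z i ≠ 0) → comp β g z = c * mono β z := by
  have key : ∀ p : Ω, ∃ (U : Set (Fin n → ℂ)) (c : ℂ), IsOpen U ∧ (p : Fin n → ℂ) ∈ U ∧
      ∀ z ∈ U, (∀ i, z i ≠ 0) → quo β g z = c := by
    intro p
    obtain ⟨ε, hε, hsub⟩ := exists_nhd hΩ p.2
    have hU : IsOpen {z : Fin n → ℂ | ∀ i, |‖z i‖ - ‖(p : Fin n → ℂ) i‖| < ε} :=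
      isOpen_modNhd _ _
    have hpU : (p : Fin n → ℂ) ∈ {z : Fin n → ℂ | ∀ i, |‖z i‖ - ‖(p : Fin n → ℂ) i‖| < ε} := by
      intro i
      simpa using hε
    obtain ⟨q, hq1, hq2⟩ := dense_star.inter_open_nonempty _ hU ⟨_, hpU⟩
    refine ⟨_, quo β g q, hU, hpU, fun z hz hz0 => ?_⟩
    exact quo_local hΩ hg β hsub hz hz0 hq1 hq2
  choose U c hU hpU hc using key
  have hloc : IsLocallyConstant c := by
    rw [IsLocallyConstant.iff_exists_open]
    intro p
    refine ⟨Subtype.val ⁻¹' (U p), (hU p).preimage continuous_subtype_val, hpU p, ?_⟩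
    intro q hq
    obtain ⟨z, hz1, hz2⟩ := dense_star.inter_open_nonempty _ ((hU p).inter (hU q))
      ⟨(q : Fin n → ℂ), hq, hpU q⟩
    rw [← hc p z hz1.1 hz2, ← hc q z hz1.2 hz2]
  have hpre : PreconnectedSpace Ω := isPreconnected_iff_preconnectedSpace.1 hΩ.isConnected.2
  obtain ⟨p0, hp0⟩ := hΩ.isConnected.1
  refine ⟨c ⟨p0, hp0⟩, fun z hz hz0 => ?_⟩
  have h1 : c ⟨z, hz⟩ = c ⟨p0, hp0⟩ := hloc.apply_eq_of_preconnectedSpace _ _
  have h2 := hc ⟨z, hz⟩ z (hpU _) hz0
  rw [← h1, ← h2]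
  unfold quo
  have h3 : mono (-β) z * mono β z = 1 := by
    rw [← mono_add hz0, neg_add_cancel, mono_zero]
  calc comp β g z = (mono (-β) z * mono β z) * comp β g z := by rw [h3, one_mul]
    _ = _ := by ring

/-- a chosen Laurent coefficient -/
noncomputable def coeff {Ω : Set (Fin n → ℂ)} (hΩ : IsReinhardtDomain Ω)
    {g : (Fin n → ℂ) → ℂ} (hg : DifferentiableOn ℂ g Ω) (β : Fin n → ℤ) : ℂ :=
  (exists_coeff hΩ hg β).choose

theorem coeff_spec {Ω : Set (Fin n → ℂ)} (hΩ : IsReinhardtDomain Ω)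
    {g : (Fin n → ℂ) → ℂ} (hg : DifferentiableOn ℂ g Ω) (β : Fin n → ℤ) {z : Fin n → ℂ}
    (hz : z ∈ Ω) (hz0 : ∀ i, z i ≠ 0) : comp β g z = coeff hΩ hg β * mono β z :=
  (exists_coeff hΩ hg β).choose_spec z hz hz0

/-- components are bounded on compact sets -/
theorem comp_bound {Ω : Set (Fin n → ℂ)} (hΩ : IsReinhardtDomain Ω)
    {g : (Fin n → ℂ) → ℂ} (hg : ContinuousOn g Ω) (β : Fin n → ℤ) {S : Set (Fin n → ℂ)}
    (hS : IsCompact S) (hSΩ : S ⊆ Ω) : ∃ M : ℝ, ∀ z ∈ S, ‖comp β g z‖ ≤ M := by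
  have hK : IsCompact ((fun p : Tor n × (Fin n → ℂ) => act p.1 p.2) '' (univ ×ˢ S)) :=
    (isCompact_univ.prod hS).image continuous_act
  have hKΩ : ((fun p : Tor n × (Fin n → ℂ) => act p.1 p.2) '' (univ ×ˢ S)) ⊆ Ω := by
    rintro _ ⟨⟨t, z⟩, ⟨_, hz⟩, rfl⟩
    exact act_mem hΩ t (hSΩ hz)
  obtain ⟨M, hM⟩ := hK.exists_bound_of_continuousOn (hg.mono hKΩ)
  refine ⟨M, fun z hz => ?_⟩
  unfold comp
  have h1 := norm_integral_le_of_norm_le_const (μ := tm n) (C := M)
    (f := fun t => UnitAddTorus.mFourier (-β) t * g (act t z)) (Eventually.of_forall fun t => by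
      rw [norm_mul, norm_mFourier_apply, one_mul]
      exact hM _ ⟨(t, z), ⟨mem_univ _, hz⟩, rfl⟩)
  simpa using h1

/-- no negative exponents at coordinate hyperplanes that meet the domain -/
theorem coeff_eq_zero {Ω : Set (Fin n → ℂ)} (hΩ : IsReinhardtDomain Ω)
    {g : (Fin n → ℂ) → ℂ} (hg : DifferentiableOn ℂ g Ω) (β : Fin n → ℤ) {i : Fin n}
    (hβ : β i < 0) {p : Fin n → ℂ} (hp : p ∈ Ω) (hpi : p i = 0) : coeff hΩ hg β = 0 := by
  classical
  obtain ⟨ε, hε, hsub⟩ := exists_nhd hΩ hp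
  -- a point with the other coordinates nonzero
  let q : Fin n → ℂ := fun j => if p j = 0 then ((ε / 2 : ℝ) : ℂ) else p j
  have hq0 : ∀ j, q j ≠ 0 := by
    intro j
    by_cases h : p j = 0
    · simp only [q, h, if_true]
      exact_mod_cast (half_pos hε).ne'
    · simp only [q, h, if_false]
      exact h
  have hqmod : ∀ j, |‖q j‖ - ‖p j‖| < ε := by
    intro j
    by_cases h : p j = 0
    · simp only [q, h, if_true, Complex.norm_real, norm_zero, sub_zero, Real.norm_eq_abs, abs_abs]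
      rw [abs_of_pos (half_pos hε)]
      linarith
    · simp only [q, h, if_false, sub_self, abs_zero]
      exact hε
  have hmem : ∀ v : ℂ, ‖v‖ ≤ ε / 2 → Function.update q i v ∈ Ω := by
    intro v hv
    apply hsub
    intro j
    by_cases h : j = i
    · subst h
      rw [Function.update_self, hpi, norm_zero, sub_zero, abs_of_nonneg (norm_nonneg _)]
      linarith
    · rw [Function.update_of_ne h]
      exact hqmod j
  have hcomp : IsCompact ((fun v : ℂ => Function.update q i v) '' closedBall 0 (ε / 2)) :=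
    (isCompact_closedBall _ _).image (continuous_const.update i continuous_id)
  obtain ⟨M, hM⟩ := comp_bound hΩ hg.continuousOn β hcomp (by
    rintro _ ⟨v, hv, rfl⟩
    exact hmem v (by simpa using hv))
  by_contra hc
  set C := ∏ j ∈ Finset.univ.erase i, q j ^ β j with hC
  have hC0 : C ≠ 0 := Finset.prod_ne_zero_iff.2 fun j _ => zpow_ne_zero _ (hq0 j)
  have hcC : 0 < ‖coeff hΩ hg β * C‖ := norm_pos_iff.2 (mul_ne_zero hc hC0)
  -- bound `‖c C‖ ρ^β ≤ M` for small `ρ`
  have hb : ∀ ρ : ℝ, 0 < ρ → ρ ≤ ε / 2 → ‖coeff hΩ hg β * C‖ * ρ ^ β i ≤ M := by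
    intro ρ hρ hρε
    have hv : ‖(ρ : ℂ)‖ ≤ ε / 2 := by
      rw [Complex.norm_real, Real.norm_of_nonneg hρ.le]; exact hρε
    have h1 := hM (Function.update q i (ρ : ℂ)) ⟨(ρ : ℂ), by simpa using hv, rfl⟩
    have h2 : ∀ j, Function.update q i (ρ : ℂ) j ≠ 0 := by
      intro j
      by_cases h : j = i
      · subst h
        rw [Function.update_self]
        exact_mod_cast hρ.ne'
      · rw [Function.update_of_ne h]
        exact hq0 j
    rw [coeff_spec hΩ hg β (hmem _ hv) h2, mono_update] at h1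
    have h3 : ‖coeff hΩ hg β * ((ρ : ℂ) ^ β i * C)‖ = ‖coeff hΩ hg β * C‖ * ρ ^ β i := by
      rw [norm_mul, norm_mul, norm_mul, norm_zpow, Complex.norm_real, Real.norm_of_nonneg hρ.le]
      ring
    rw [← h3]
    exact h1
  -- let `ρ → 0`
  obtain ⟨k, hk⟩ : ∃ k : ℕ, β i = -((k : ℤ) + 1) := ⟨(-(β i) - 1).toNat, by omega⟩
  have hM0 : 0 ≤ M := le_trans (by positivity) (hb (ε / 2) (half_pos hε) le_rfl)
  set A := ‖coeff hΩ hg β * C‖ with hA
  set ρ := min (min (ε / 2) 1) (A / (2 * (M + 1))) with hρ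
  have hρpos : 0 < ρ := by
    rw [hρ]
    apply lt_min (lt_min (half_pos hε) one_pos)
    positivity
  have h4 := hb ρ hρpos ((min_le_left _ _).trans (min_le_left _ _))
  have hρ1 : ρ ≤ 1 := (min_le_left _ _).trans (min_le_right _ _)
  have h5 : ρ⁻¹ ≤ ρ ^ β i := by
    rw [hk, zpow_neg]
    apply inv_anti₀ (by positivity)
    have : ρ ^ ((k : ℤ) + 1) = ρ ^ (k + 1) := by norm_cast
    rw [this, pow_succ]
    calc ρ ^ k * ρ ≤ 1 * ρ := by
          apply mul_le_mul_of_nonneg_right _ hρpos.le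
          exact pow_le_one₀ hρpos.le hρ1
      _ = ρ := one_mul ρ
  have h6 : A * ρ⁻¹ ≤ M := le_trans (mul_le_mul_of_nonneg_left h5 hcC.le) h4
  have h7 : ρ ≤ A / (2 * (M + 1)) := min_le_right _ _
  have h8 : A ≤ M * ρ := by
    rw [← div_eq_mul_inv, div_le_iff₀ hρpos] at h6
    exact h6
  have h9 : M * ρ ≤ M * (A / (2 * (M + 1))) := mul_le_mul_of_nonneg_left h7 hM0
  have h10 : M * (A / (2 * (M + 1))) ≤ A / 2 := by
    rw [mul_div_assoc', div_le_div_iff₀ (by positivity) (by norm_num)]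
    nlinarith
  linarith

end Pool.Agent.TH184.HS
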