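import Mathlib
import Pool.Agent.TH184.HS.Const

set_option autoImplicit false

open MeasureTheory Set Filter Metric
open scoped ComplexConjugate ENNReal Topology Real

namespace Pool.Agent.TH184.HS

variable {n : ℕ}

/-- functions of weight `β` -/
def HasWeight (Ω : Set (Fin n → ℂ)) (β : Fin n → ℤ) (ψ : (Fin n → ℂ) → ℂ) : Prop :=
  ∀ z ∈ Ω, ∀ t : Tor n, ψ (act t z) = UnitAddTorus.mFourier β t * ψ z

theorem conj_mFourier (β : Fin n → ℤ) (t : Tor n) :
    conj (UnitAddTorus.mFourier β t) = UnitAddTorus.mFourier (-β) t :=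
  UnitAddTorus.mFourier_neg.symm

theorem pairing {Ω : Set (Fin n → ℂ)} (hΩ : IsReinhardtDomain Ω) {β : Fin n → ℤ}
    {ψ u : (Fin n → ℂ) → ℂ} (hψ : HasWeight Ω β ψ)
    (hint : Integrable (fun z => conj (ψ z) * u z) (volume.restrict Ω)) :
    ∫ z in Ω, conj (ψ z) * u z = ∫ z in Ω, conj (ψ z) * comp β u z := by
  have hskew : MeasurePreserving (fun p : Tor n × (Fin n → ℂ) => (p.1, act p.1 p.2))
      ((tm n).prod (volume.restrict Ω)) ((tm n).prod (volume.restrict Ω)) :=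
    (MeasurePreserving.id (tm n)).skew_product (g := fun t z => act t z)
      continuous_act.measurable
      (ae_of_all _ fun t => (measurePreserving_act_restrict hΩ t).map_eq)
  have hI : Integrable (fun p : Tor n × (Fin n → ℂ) => conj (ψ (act p.1 p.2)) * u (act p.1 p.2))
      ((tm n).prod (volume.restrict Ω)) :=
    hskew.integrable_comp_of_integrable (hint.comp_snd (tm n))
  have h1 : ∫ p, conj (ψ (act p.1 p.2)) * u (act p.1 p.2) ∂((tm n).prod (volume.restrict Ω)) =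
      ∫ z in Ω, conj (ψ z) * u z := by
    rw [integral_prod _ hI]
    have h2 : ∀ t : Tor n, ∫ z in Ω, conj (ψ (act t z)) * u (act t z) =
        ∫ z in Ω, conj (ψ z) * u z := by
      intro t
      have hp := measurePreserving_act_restrict hΩ t
      have := integral_map (μ := volume.restrict Ω) hp.measurable.aemeasurable
        (f := fun z => conj (ψ z) * u z) (by rw [hp.map_eq]; exact hint.1)
      rw [hp.map_eq] at this
      exact this.symm
    simp_rw [h2]
    simp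
  rw [← h1, integral_prod_symm _ hI]
  have hmem : ∀ᵐ z ∂(volume.restrict Ω), z ∈ Ω := ae_restrict_mem hΩ.isOpen.measurableSet
  refine integral_congr_ae ?_
  filter_upwards [hmem] with z hz
  rw [comp, ← integral_const_mul]
  refine integral_congr_ae (Eventually.of_forall fun t => ?_)
  simp only
  rw [hψ z hz t, map_mul, conj_mFourier]
  ring

theorem ae_star {Ω : Set (Fin n → ℂ)} :
    ∀ᵐ z ∂((volume : Measure (Fin n → ℂ)).restrict Ω), ∀ i, z i ≠ 0 := by
  rw [ae_all_iff]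
  intro i
  apply ae_restrict_of_ae
  have h := Measure.pi_hyperplane (fun _ : Fin n => (volume : Measure ℂ)) i (0 : ℂ)
  rw [ae_iff]
  simp only [not_not]
  exact h

/-- the exponents of the monomials in `A²(Ω)` -/
structure Good (Ω : Set (Fin n → ℂ)) (β : Fin n → ℤ) : Prop where
  memLp : MemLp (mono β) 2 (volume.restrict Ω)
  neg : ∀ i, β i < 0 → ∀ z ∈ Ω, z i ≠ 0

theorem differentiableOn_mono {Ω : Set (Fin n → ℂ)} {β : Fin n → ℤ}
    (hneg : ∀ i, β i < 0 → ∀ z ∈ Ω, z i ≠ 0) : DifferentiableOn ℂ (mono β) Ω := by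
  intro z hz
  apply DifferentiableAt.differentiableWithinAt
  unfold mono
  have h : ∀ i ∈ (Finset.univ : Finset (Fin n)), DifferentiableAt ℂ
      (fun z : Fin n → ℂ => z i ^ β i) z := by
    intro i _
    have h1 : DifferentiableAt ℂ (fun x : ℂ => x ^ β i) (z i) := by
      rw [differentiableAt_zpow]
      rcases lt_or_ge (β i) 0 with h | h
      · exact Or.inl (hneg i h z hz)
      · exact Or.inr h
    have h2 : DifferentiableAt ℂ (fun z : Fin n → ℂ => z i) z := by fun_prop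
    exact DifferentiableAt.comp (g := fun x : ℂ => x ^ β i) z h1 h2
  classical
  have h3 := (HasFDerivAt.finsetProd (u := Finset.univ) (g := fun i (z : Fin n → ℂ) => z i ^ β i)
    fun i hi => (h i hi).hasFDerivAt).differentiableAt
  exact h3

theorem hasWeight_mono (Ω : Set (Fin n → ℂ)) (β : Fin n → ℤ) : HasWeight Ω β (mono β) :=
  fun z _ t => mono_act β t z

/-- compact invariant exhaustion -/
def exh (Ω : Set (Fin n → ℂ)) (j : ℕ) : Set (Fin n → ℂ) :=
  {z | 1 / ((j : ℝ) + 1) ≤ infDist z Ωᶜ}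

theorem isClosed_exh (Ω : Set (Fin n → ℂ)) (j : ℕ) : IsClosed (exh Ω j) :=
  isClosed_le continuous_const (continuous_infDist_pt _)

theorem exh_subset {Ω : Set (Fin n → ℂ)} (j : ℕ) : exh Ω j ⊆ Ω := by
  intro z hz
  by_contra h
  have h1 : infDist z Ωᶜ = 0 := infDist_zero_of_mem (mem_compl h)
  have h2 : (0 : ℝ) < 1 / ((j : ℝ) + 1) := by positivity
  have h3 : 1 / ((j : ℝ) + 1) ≤ infDist z Ωᶜ := hz
  linarith

theorem isCompact_exh {Ω : Set (Fin n → ℂ)} (hb : Bornology.IsBounded Ω) (j : ℕ) :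
    IsCompact (exh Ω j) :=
  isCompact_of_isClosed_isBounded (isClosed_exh Ω j) (hb.subset (exh_subset j))

theorem isometry_act (t : Tor n) : Isometry (act t) := by
  apply Isometry.of_dist_eq
  intro z w
  rw [dist_eq_norm, dist_eq_norm]
  simp only [Pi.norm_def]
  congr 1
  apply Finset.sup_congr rfl
  intro i _
  rw [← NNReal.coe_inj]
  simp only [coe_nnnorm, Pi.sub_apply, act]
  rw [← mul_sub, norm_mul]
  simp

theorem exh_act {Ω : Set (Fin n → ℂ)} (hΩ : IsReinhardtDomain Ω) (j : ℕ) (t : Tor n)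
    {z : Fin n → ℂ} : act t z ∈ exh Ω j ↔ z ∈ exh Ω j := by
  have h1 : act t '' Ωᶜ = Ωᶜ := by
    ext w
    constructor
    · rintro ⟨v, hv, rfl⟩
      rw [mem_compl_iff, act_mem_iff hΩ]
      exact hv
    · intro hw
      refine ⟨act (-t) w, ?_, act_act_neg t w⟩
      rw [mem_compl_iff, act_mem_iff hΩ]
      exact hw
  have h2 := infDist_image (isometry_act t) (x := z) (t := Ωᶜ)
  rw [h1] at h2
  simp only [exh, mem_ofPred_eq, h2]

theorem exh_mono (Ω : Set (Fin n → ℂ)) : Monotone (exh Ω) := by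
  intro j k hjk z hz
  have h3 : 1 / ((j : ℝ) + 1) ≤ infDist z Ωᶜ := hz
  have h4 : (1 : ℝ) / ((k : ℝ) + 1) ≤ 1 / ((j : ℝ) + 1) := by
    apply one_div_le_one_div_of_le (by positivity)
    have : (j : ℝ) ≤ k := by exact_mod_cast hjk
    linarith
  exact h4.trans h3

theorem iUnion_exh {Ω : Set (Fin n → ℂ)} (hΩ : IsReinhardtDomain Ω) (hne : Ωᶜ.Nonempty) :
    ⋃ j, exh Ω j = Ω := by
  apply Subset.antisymm (iUnion_subset fun j => exh_subset j)
  intro z hz
  have h1 : 0 < infDist z Ωᶜ :=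
    (hΩ.isOpen.isClosed_compl.notMem_iff_infDist_pos hne).1 (fun h => h hz)
  obtain ⟨j, hj⟩ := exists_nat_one_div_lt h1
  exact mem_iUnion.2 ⟨j, hj.le⟩

/-- `∫_Ω |w|²` -/
noncomputable def nsq (Ω : Set (Fin n → ℂ)) (w : (Fin n → ℂ) → ℂ) : ℝ≥0∞ :=
  ∫⁻ z in Ω, ‖w z‖ₑ ^ 2

theorem enorm_toLp_sq {Ω : Set (Fin n → ℂ)} {w : (Fin n → ℂ) → ℂ}
    (h : MemLp w 2 (volume.restrict Ω)) : ‖h.toLp w‖ₑ ^ 2 = nsq Ω w := by
  rw [Lp.enorm_toLp]
  have h2 := eLpNorm_nnreal_pow_eq_lintegral (μ := volume.restrict Ω) (f := w) (p := 2)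
    (by norm_num)
  simp only [NNReal.coe_ofNat, ENNReal.coe_ofNat, ENNReal.rpow_ofNat] at h2
  exact h2

theorem memLp_of_nsq {Ω : Set (Fin n → ℂ)} {w : (Fin n → ℂ) → ℂ}
    (hm : AEStronglyMeasurable w (volume.restrict Ω)) (h : nsq Ω w ≠ ⊤) :
    MemLp w 2 (volume.restrict Ω) := by
  refine ⟨hm, ?_⟩
  have h2 := eLpNorm_nnreal_pow_eq_lintegral (μ := volume.restrict Ω) (f := w) (p := 2)
    (by norm_num)
  simp only [NNReal.coe_ofNat, ENNReal.coe_ofNat, ENNReal.rpow_ofNat] at h2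
  by_contra hcon
  rw [not_lt, top_le_iff] at hcon
  rw [hcon] at h2
  apply h
  rw [nsq, ← h2]
  simp

theorem inner_toLp {Ω : Set (Fin n → ℂ)} {w : (Fin n → ℂ) → ℂ}
    (h : MemLp w 2 (volume.restrict Ω)) (v : L2 Ω) :
    inner ℂ (h.toLp w) v = ∫ z in Ω, conj (w z) * v z := by
  rw [L2.inner_def]
  refine integral_congr_ae ?_
  filter_upwards [h.coeFn_toLp] with z hz
  rw [RCLike.inner_apply', hz]

theorem integrable_conj_mul {Ω : Set (Fin n → ℂ)} {w v : (Fin n → ℂ) → ℂ}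
    (h : MemLp w 2 (volume.restrict Ω)) (h' : MemLp v 2 (volume.restrict Ω)) :
    Integrable (fun z => conj (w z) * v z) (volume.restrict Ω) :=
  MemLp.integrable_mul h.star h'

theorem memLp_indicator_exh {Ω : Set (Fin n → ℂ)} (hb : Bornology.IsBounded Ω)
    {w : (Fin n → ℂ) → ℂ} (hw : ContinuousOn w Ω) (hΩ : IsOpen Ω) (j : ℕ) :
    MemLp ((exh Ω j).indicator w) 2 (volume.restrict Ω) := by
  obtain ⟨M, hM⟩ := (isCompact_exh hb j).exists_bound_of_continuousOn (hw.mono (exh_subset j))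
  have hfin : volume Ω < ⊤ := hb.measure_lt_top
  have : IsFiniteMeasure (volume.restrict Ω : Measure (Fin n → ℂ)) := ⟨by
    rw [Measure.restrict_apply_univ]; exact hfin⟩
  have hm : AEStronglyMeasurable ((exh Ω j).indicator w) (volume.restrict Ω) :=
    (hw.aestronglyMeasurable hΩ.measurableSet).indicator (isClosed_exh Ω j).measurableSet
  refine MemLp.of_bound hm (max M 0) (Eventually.of_forall fun z => ?_)
  by_cases hz : z ∈ exh Ω j
  · rw [indicator_of_mem hz]
    exact (hM z hz).trans (le_max_left _ _)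
  · rw [indicator_of_notMem hz, norm_zero]
    exact le_max_right _ _

/-- norm bound by testing against cut-offs -/
theorem nsq_le_of_test {Ω : Set (Fin n → ℂ)} (hΩ : IsReinhardtDomain Ω)
    (hb : Bornology.IsBounded Ω) (hne : Ωᶜ.Nonempty)
    {w : (Fin n → ℂ) → ℂ} (hw : ContinuousOn w Ω) (v : L2 Ω)
    (h : ∀ j, ∫ z in Ω, conj ((exh Ω j).indicator w z) * v z =
      ∫ z in Ω, conj ((exh Ω j).indicator w z) * w z) : nsq Ω w ≤ ‖v‖ₑ ^ 2 := by
  have hj : ∀ j, ∫⁻ z in exh Ω j, ‖w z‖ₑ ^ 2 ≤ ‖v‖ₑ ^ 2 := by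
    intro j
    have hm := memLp_indicator_exh hb hw hΩ.isOpen j
    have h1 : inner ℂ (hm.toLp _) v = inner ℂ (hm.toLp _) (hm.toLp ((exh Ω j).indicator w)) := by
      rw [inner_toLp, h j, inner_toLp]
      refine integral_congr_ae ?_
      filter_upwards [hm.coeFn_toLp] with z hz
      rw [hz]
      by_cases hzj : z ∈ exh Ω j
      · rw [indicator_of_mem hzj]
      · rw [indicator_of_notMem hzj]; simp
    rw [inner_self_eq_norm_sq_to_K] at h1
    have h2 : ‖hm.toLp ((exh Ω j).indicator w)‖ ^ 2 ≤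
        ‖hm.toLp ((exh Ω j).indicator w)‖ * ‖v‖ := by
      have h3 := norm_inner_le_norm (𝕜 := ℂ) (hm.toLp ((exh Ω j).indicator w)) v
      rw [h1] at h3
      simpa using h3
    have h4 : ‖hm.toLp ((exh Ω j).indicator w)‖ ≤ ‖v‖ := by
      by_contra hlt
      push Not at hlt
      have h5 : 0 < ‖hm.toLp ((exh Ω j).indicator w)‖ := (norm_nonneg _).trans_lt hlt
      nlinarith
    have h6 : ‖hm.toLp ((exh Ω j).indicator w)‖ₑ ≤ ‖v‖ₑ := by
      rw [enorm_le_iff_norm_le]; exact h4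
    have h7 : ‖hm.toLp ((exh Ω j).indicator w)‖ₑ ^ 2 ≤ ‖v‖ₑ ^ 2 := by gcongr
    rw [enorm_toLp_sq, nsq] at h7
    refine le_trans (le_of_eq ?_) h7
    have e1 : (fun z => ‖(exh Ω j).indicator w z‖ₑ ^ 2) =
        (exh Ω j).indicator (fun z => ‖w z‖ₑ ^ 2) := by
      funext z
      by_cases hz : z ∈ exh Ω j
      · rw [indicator_of_mem hz, indicator_of_mem hz]
      · rw [indicator_of_notMem hz, indicator_of_notMem hz]; simp
    rw [e1, lintegral_indicator (isClosed_exh Ω j).measurableSet,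
      Measure.restrict_restrict (isClosed_exh Ω j).measurableSet,
      inter_eq_left.2 (exh_subset j)]
  have e0 : nsq Ω w = ∫⁻ z in ⋃ j, exh Ω j, ‖w z‖ₑ ^ 2 := by
    rw [iUnion_exh hΩ hne]; rfl
  rw [e0, setLIntegral_iUnion_of_directed]
  · exact iSup_le hj
  · exact (exh_mono Ω).directed_le

theorem hasWeight_indicator {Ω : Set (Fin n → ℂ)} (hΩ : IsReinhardtDomain Ω) {β : Fin n → ℤ}
    {w : (Fin n → ℂ) → ℂ} (hw : HasWeight Ω β w) (j : ℕ) :
    HasWeight Ω β ((exh Ω j).indicator w) := by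
  intro z hz t
  by_cases h : z ∈ exh Ω j
  · rw [indicator_of_mem h, indicator_of_mem ((exh_act hΩ j t).2 h), hw z hz t]
  · rw [indicator_of_notMem h, indicator_of_notMem (fun h' => h ((exh_act hΩ j t).1 h')), mul_zero]

end Pool.Agent.TH184.HS
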