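import Mathlib
import Pool.Agent.TH184.HS.Pair

set_option autoImplicit false

open MeasureTheory Set Filter Metric
open scoped ComplexConjugate ENNReal Topology Real

namespace Pool.Agent.TH184.HS

variable {n : ℕ} {Ω : Set (Fin n → ℂ)}

theorem pair_hol (hΩ : IsReinhardtDomain Ω) {β : Fin n → ℤ} {g : (Fin n → ℂ) → ℂ}
    (hg : DifferentiableOn ℂ g Ω) {u : L2 Ω} (hu : (u : (Fin n → ℂ) → ℂ) =ᵐ[volume.restrict Ω] g)
    {ψ : (Fin n → ℂ) → ℂ} (hψ : HasWeight Ω β ψ) (hm : MemLp ψ 2 (volume.restrict Ω)) :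
    ∫ z in Ω, conj (ψ z) * u z = coeff hΩ hg β * ∫ z in Ω, conj (ψ z) * mono β z := by
  have h1 : ∫ z in Ω, conj (ψ z) * u z = ∫ z in Ω, conj (ψ z) * g z := by
    refine integral_congr_ae ?_
    filter_upwards [hu] with z hz
    rw [hz]
  have hint : Integrable (fun z => conj (ψ z) * g z) (volume.restrict Ω) := by
    refine (integrable_conj_mul hm (Lp.memLp u)).congr ?_
    filter_upwards [hu] with z hz
    rw [hz]
  rw [h1, pairing hΩ hψ hint, ← integral_const_mul]
  refine integral_congr_ae ?_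
  filter_upwards [ae_star (Ω := Ω), ae_restrict_mem hΩ.isOpen.measurableSet] with z hz hzΩ
  rw [coeff_spec hΩ hg β hzΩ hz]
  ring

theorem coeff_zero_of_not_good (hΩ : IsReinhardtDomain Ω) (hb : Bornology.IsBounded Ω)
    (hne : Ωᶜ.Nonempty) {β : Fin n → ℤ} (hβ : ¬ Good Ω β) {g : (Fin n → ℂ) → ℂ}
    (hg : DifferentiableOn ℂ g Ω) {u : L2 Ω}
    (hu : (u : (Fin n → ℂ) → ℂ) =ᵐ[volume.restrict Ω] g) : coeff hΩ hg β = 0 := by
  by_contra hc
  have hneg : ∀ i, β i < 0 → ∀ z ∈ Ω, z i ≠ 0 := by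
    intro i hi z hz hzi
    exact hc (coeff_eq_zero hΩ hg β hi hz hzi)
  apply hβ
  refine ⟨?_, hneg⟩
  have hcont : ContinuousOn (fun z => coeff hΩ hg β * mono β z) Ω :=
    continuousOn_const.mul (differentiableOn_mono hneg).continuousOn
  have hw : HasWeight Ω β (fun z => coeff hΩ hg β * mono β z) := by
    intro z hz t
    simp only
    rw [mono_act]
    ring
  have h1 := nsq_le_of_test hΩ hb hne hcont u (by
    intro j
    have hm := memLp_indicator_exh hb hcont hΩ.isOpen j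
    rw [pair_hol hΩ hg hu (hasWeight_indicator hΩ hw j) hm, ← integral_const_mul]
    refine integral_congr_ae (Eventually.of_forall fun z => ?_)
    simp only
    ring)
  have h2 : MemLp (fun z => coeff hΩ hg β * mono β z) 2 (volume.restrict Ω) := by
    apply memLp_of_nsq (hcont.aestronglyMeasurable hΩ.isOpen.measurableSet)
    refine ne_top_of_le_ne_top ?_ h1
    exact ENNReal.pow_ne_top enorm_ne_top
  have h3 := h2.const_mul (coeff hΩ hg β)⁻¹
  refine h3.ae_eq (Eventually.of_forall fun z => ?_)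
  change (coeff hΩ hg β)⁻¹ * (coeff hΩ hg β * mono β z) = mono β z
  rw [← mul_assoc, inv_mul_cancel₀ hc, one_mul]

/-- elements of the closure of `A²(Ω)` have the same testing property -/
theorem closure_pair (hΩ : IsReinhardtDomain Ω) {β : Fin n → ℤ} {F : L2 Ω}
    (hF : F ∈ (bergman Ω).topologicalClosure)
    {ψ ψ0 : (Fin n → ℂ) → ℂ} (hψ : HasWeight Ω β ψ) (hm : MemLp ψ 2 (volume.restrict Ω))
    (hψ0 : HasWeight Ω β ψ0) (hm0 : MemLp ψ0 2 (volume.restrict Ω)) :
    inner ℂ (hm.toLp ψ) F * (∫ z in Ω, conj (ψ0 z) * mono β z) =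
      inner ℂ (hm0.toLp ψ0) F * (∫ z in Ω, conj (ψ z) * mono β z) := by
  have hcl : IsClosed {F : L2 Ω | inner ℂ (hm.toLp ψ) F * (∫ z in Ω, conj (ψ0 z) * mono β z) =
      inner ℂ (hm0.toLp ψ0) F * (∫ z in Ω, conj (ψ z) * mono β z)} := by
    apply isClosed_eq
    · exact (continuous_const.inner continuous_id).mul continuous_const
    · exact (continuous_const.inner continuous_id).mul continuous_const
  have hsub : (bergman Ω : Set (L2 Ω)) ⊆
      {F : L2 Ω | inner ℂ (hm.toLp ψ) F * (∫ z in Ω, conj (ψ0 z) * mono β z) =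
      inner ℂ (hm0.toLp ψ0) F * (∫ z in Ω, conj (ψ z) * mono β z)} := by
    rintro u ⟨g, hg, hu⟩
    rw [mem_ofPred_eq, inner_toLp, inner_toLp, pair_hol hΩ hg hu hψ hm,
      pair_hol hΩ hg hu hψ0 hm0]
    ring
  exact closure_minimal hsub hcl hF

theorem closure_pair_zero (hΩ : IsReinhardtDomain Ω) (hb : Bornology.IsBounded Ω)
    (hne : Ωᶜ.Nonempty) {β : Fin n → ℤ} (hβ : ¬ Good Ω β) {F : L2 Ω}
    (hF : F ∈ (bergman Ω).topologicalClosure)
    {ψ : (Fin n → ℂ) → ℂ} (hψ : HasWeight Ω β ψ) (hm : MemLp ψ 2 (volume.restrict Ω)) :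
    inner ℂ (hm.toLp ψ) F = 0 := by
  have hcl : IsClosed {F : L2 Ω | inner ℂ (hm.toLp ψ) F = 0} :=
    isClosed_eq (continuous_const.inner continuous_id) continuous_const
  have hsub : (bergman Ω : Set (L2 Ω)) ⊆ {F : L2 Ω | inner ℂ (hm.toLp ψ) F = 0} := by
    rintro u ⟨g, hg, hu⟩
    rw [mem_ofPred_eq, inner_toLp, pair_hol hΩ hg hu hψ hm,
      coeff_zero_of_not_good hΩ hb hne hβ hg hu, zero_mul]
  exact closure_minimal hsub hcl hF

variable {f : (Fin n → ℂ) → ℂ}

/-- the defect functional -/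
noncomputable def defect (T : bergman Ω →L[ℂ] L2 Ω) {ψ fψ : (Fin n → ℂ) → ℂ}
    (hm : MemLp ψ 2 (volume.restrict Ω)) (hfm : MemLp fψ 2 (volume.restrict Ω))
    (u : bergman Ω) : ℂ :=
  inner ℂ (hfm.toLp fψ) (u : L2 Ω) - inner ℂ (hm.toLp ψ) (T u)

theorem continuous_defect (T : bergman Ω →L[ℂ] L2 Ω) {ψ fψ : (Fin n → ℂ) → ℂ}
    (hm : MemLp ψ 2 (volume.restrict Ω)) (hfm : MemLp fψ 2 (volume.restrict Ω)) :
    Continuous (defect T hm hfm) := by
  unfold defect
  exact (continuous_const.inner continuous_subtype_val).sub (continuous_const.inner T.continuous)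

/-- on the domain of the Hankel operator the defect is a pairing with the closure of `A²` -/
theorem defect_eq {T : bergman Ω →L[ℂ] L2 Ω}
    (hT : ∀ (u : bergman Ω) (hu : u ∈ hankelDomain Ω f), T u = hankel Ω f u hu)
    {u : bergman Ω} (hu : u ∈ hankelDomain Ω f) :
    ∃ F ∈ (bergman Ω).topologicalClosure, ∀ (ψ fψ : (Fin n → ℂ) → ℂ)
      (hm : MemLp ψ 2 (volume.restrict Ω)) (hfm : MemLp fψ 2 (volume.restrict Ω))
      (_ : ∀ z ∈ Ω, fψ z = f z * ψ z), MeasurableSet Ω →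
      defect T hm hfm u = inner ℂ (hm.toLp ψ) F := by
  set v : L2 Ω := MemLp.toLp (fun z => conj (f z) * (u : L2 Ω) z) hu with hv
  refine ⟨v - (bergman Ω)ᗮ.starProjection v, ?_, ?_⟩
  · rw [← Submodule.orthogonal_orthogonal_eq_closure]
    exact Submodule.sub_starProjection_mem_orthogonal v
  · intro ψ fψ hm hfm hfψ hΩ
    rw [inner_sub_right, defect, hT u hu, hankel, inner_toLp hm v, inner_toLp hfm]
    congr 1
    refine integral_congr_ae ?_
    filter_upwards [MemLp.coeFn_toLp hu, ae_restrict_mem hΩ] with z hz hzΩ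
    rw [hfψ z hzΩ, hv, hz, map_mul]
    ring

theorem defect_pair (hΩ : IsReinhardtDomain Ω) {T : bergman Ω →L[ℂ] L2 Ω}
    (hD : Dense (hankelDomain Ω f))
    (hT : ∀ (u : bergman Ω) (hu : u ∈ hankelDomain Ω f), T u = hankel Ω f u hu)
    {β : Fin n → ℤ} {ψ fψ ψ0 fψ0 : (Fin n → ℂ) → ℂ}
    (hψ : HasWeight Ω β ψ) (hm : MemLp ψ 2 (volume.restrict Ω))
    (hfm : MemLp fψ 2 (volume.restrict Ω)) (hfψ : ∀ z ∈ Ω, fψ z = f z * ψ z)
    (hψ0 : HasWeight Ω β ψ0) (hm0 : MemLp ψ0 2 (volume.restrict Ω))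
    (hfm0 : MemLp fψ0 2 (volume.restrict Ω)) (hfψ0 : ∀ z ∈ Ω, fψ0 z = f z * ψ0 z)
    (u : bergman Ω) :
    defect T hm hfm u * (∫ z in Ω, conj (ψ0 z) * mono β z) =
      defect T hm0 hfm0 u * (∫ z in Ω, conj (ψ z) * mono β z) := by
  have h1 : (fun u => defect T hm hfm u * (∫ z in Ω, conj (ψ0 z) * mono β z)) =
      (fun u => defect T hm0 hfm0 u * (∫ z in Ω, conj (ψ z) * mono β z)) := by
    apply Continuous.ext_on hD
    · exact (continuous_defect T hm hfm).mul continuous_const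
    · exact (continuous_defect T hm0 hfm0).mul continuous_const
    · intro u hu
      obtain ⟨F, hF, hF2⟩ := defect_eq hT hu
      simp only
      rw [hF2 ψ fψ hm hfm hfψ hΩ.isOpen.measurableSet,
        hF2 ψ0 fψ0 hm0 hfm0 hfψ0 hΩ.isOpen.measurableSet]
      exact closure_pair hΩ hF hψ hm hψ0 hm0
  exact congrFun h1 u

theorem defect_zero (hΩ : IsReinhardtDomain Ω) (hb : Bornology.IsBounded Ω)
    (hne : Ωᶜ.Nonempty) {T : bergman Ω →L[ℂ] L2 Ω} (hD : Dense (hankelDomain Ω f))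
    (hT : ∀ (u : bergman Ω) (hu : u ∈ hankelDomain Ω f), T u = hankel Ω f u hu)
    {β : Fin n → ℤ} (hβ : ¬ Good Ω β) {ψ fψ : (Fin n → ℂ) → ℂ}
    (hψ : HasWeight Ω β ψ) (hm : MemLp ψ 2 (volume.restrict Ω))
    (hfm : MemLp fψ 2 (volume.restrict Ω)) (hfψ : ∀ z ∈ Ω, fψ z = f z * ψ z)
    (u : bergman Ω) : defect T hm hfm u = 0 := by
  have h1 : (fun u => defect T hm hfm u) = (fun _ => 0) := by
    apply Continuous.ext_on hD (continuous_defect T hm hfm) continuous_const
    intro u hu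
    obtain ⟨F, hF, hF2⟩ := defect_eq hT hu
    simp only
    rw [hF2 ψ fψ hm hfm hfψ hΩ.isOpen.measurableSet]
    exact closure_pair_zero hΩ hb hne hβ hF hψ hm
  exact congrFun h1 u

/-- the monomial as an element of the Bergman space -/
noncomputable def monoB {γ : Fin n → ℤ} (hγ : Good Ω γ) : bergman Ω :=
  ⟨hγ.memLp.toLp (mono γ), mono γ, differentiableOn_mono hγ.neg, hγ.memLp.coeFn_toLp⟩

theorem comp_conj_mul (hΩ : IsReinhardtDomain Ω) (hf : DifferentiableOn ℂ f Ω)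
    (α γ : Fin n → ℤ) {z : Fin n → ℂ} (hz : z ∈ Ω) (hz0 : ∀ i, z i ≠ 0) :
    comp (γ - α) (fun z => conj (f z) * mono γ z) z =
      conj (coeff hΩ hf α * mono α z) * mono γ z := by
  rw [← coeff_spec hΩ hf α hz hz0]
  unfold comp
  rw [← integral_conj, ← integral_mul_const]
  refine integral_congr_ae (Eventually.of_forall fun t => ?_)
  simp only
  rw [mono_act, map_mul, conj_mFourier, neg_neg]
  have h1 : UnitAddTorus.mFourier (-(γ - α)) t * UnitAddTorus.mFourier γ t =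
      UnitAddTorus.mFourier α t := by
    rw [← UnitAddTorus.mFourier_add]
    congr 2
    abel
  calc _ = (UnitAddTorus.mFourier (-(γ - α)) t * UnitAddTorus.mFourier γ t) *
        conj (f (act t z)) * mono γ z := by ring
    _ = _ := by rw [h1]

theorem hasWeight_conj_mul (Ω : Set (Fin n → ℂ)) (c : ℂ) (α γ : Fin n → ℤ) :
    HasWeight Ω (γ - α) (fun z => conj (c * mono α z) * mono γ z) := by
  intro z _ t
  simp only
  rw [mono_act, mono_act, map_mul, map_mul, map_mul, conj_mFourier]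
  have h1 : UnitAddTorus.mFourier (-α) t * UnitAddTorus.mFourier γ t =
      UnitAddTorus.mFourier (γ - α) t := by
    rw [← UnitAddTorus.mFourier_add]
    congr 2
    abel
  calc _ = (UnitAddTorus.mFourier (-α) t * UnitAddTorus.mFourier γ t) *
        (conj c * conj (mono α z) * mono γ z) := by ring
    _ = _ := by rw [h1]

/-- Testing `T z^γ` against cut-off functions of weight `γ - α`. -/
theorem test_identity (hΩ : IsReinhardtDomain Ω) (hf : DifferentiableOn ℂ f Ω)
    {T : bergman Ω →L[ℂ] L2 Ω} {α γ : Fin n → ℤ} (hγ : Good Ω γ)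
    {ψ fψ : (Fin n → ℂ) → ℂ}
    (hψ : HasWeight Ω (γ - α) ψ) (hm : MemLp ψ 2 (volume.restrict Ω))
    (hfm : MemLp fψ 2 (volume.restrict Ω)) (hfψ : ∀ z ∈ Ω, fψ z = f z * ψ z) :
    ∫ z in Ω, conj (ψ z) * (T (monoB hγ)) z =
      (∫ z in Ω, conj (ψ z) * (conj (coeff hΩ hf α * mono α z) * mono γ z)) -
        defect T hm hfm (monoB hγ) := by
  have h1 : inner ℂ (hfm.toLp fψ) ((monoB hγ : bergman Ω) : L2 Ω) =
      ∫ z in Ω, conj (ψ z) * (conj (coeff hΩ hf α * mono α z) * mono γ z) := by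
    rw [inner_toLp]
    have e1 : ∫ z in Ω, conj (fψ z) * ((monoB hγ : bergman Ω) : L2 Ω) z =
        ∫ z in Ω, conj (ψ z) * (conj (f z) * mono γ z) := by
      refine integral_congr_ae ?_
      filter_upwards [hγ.memLp.coeFn_toLp, ae_restrict_mem hΩ.isOpen.measurableSet] with z hz hzΩ
      have : ((monoB hγ : bergman Ω) : L2 Ω) z = mono γ z := hz
      rw [this, hfψ z hzΩ, map_mul]
      ring
    have hint : Integrable (fun z => conj (ψ z) * (conj (f z) * mono γ z))
        (volume.restrict Ω) := by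
      refine (integrable_conj_mul hfm hγ.memLp).congr ?_
      filter_upwards [ae_restrict_mem hΩ.isOpen.measurableSet] with z hzΩ
      rw [hfψ z hzΩ, map_mul]
      ring
    rw [e1, pairing hΩ hψ hint]
    refine integral_congr_ae ?_
    filter_upwards [ae_star (Ω := Ω), ae_restrict_mem hΩ.isOpen.measurableSet] with z hz hzΩ
    rw [comp_conj_mul hΩ hf α γ hzΩ hz]
  rw [defect, h1, inner_toLp]
  ring

end Pool.Agent.TH184.HS
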