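import Mathlib
import Pool.Agent.TH184.HS.Key

set_option autoImplicit false

open MeasureTheory Set Filter Metric
open scoped ComplexConjugate ENNReal Topology Real

namespace Pool.Agent.TH184.HS

variable {n : ℕ} {Ω : Set (Fin n → ℂ)} {f : (Fin n → ℂ) → ℂ}

theorem nsq_mono_ne_zero (hΩ : IsReinhardtDomain Ω) (β : Fin n → ℤ) : nsq Ω (mono β) ≠ 0 := by
  intro h
  have hm : AEStronglyMeasurable (mono β) (volume.restrict Ω : Measure (Fin n → ℂ)) := by
    apply Measurable.aestronglyMeasurable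
    unfold mono
    apply Finset.measurable_fun_prod
    intro i _
    exact (measurable_pi_apply i).pow_const (β i)
  rw [nsq, lintegral_eq_zero_iff' (hm.enorm.pow_const 2)] at h
  have h2 : ∀ᵐ z ∂((volume : Measure (Fin n → ℂ)).restrict Ω), False := by
    filter_upwards [h, ae_star (Ω := Ω)] with z hz hz0
    simp only [Pi.zero_apply, ne_eq, OfNat.ofNat_ne_zero, not_false_eq_true, pow_eq_zero_iff,
      enorm_eq_zero] at hz
    exact mono_ne_zero hz0 hz
  rw [ae_iff] at h2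
  simp only [not_false_eq_true, ofPred_true] at h2
  rw [Measure.restrict_apply_univ] at h2
  exact (hΩ.isOpen.measure_pos volume hΩ.isConnected.1).ne' h2

/-- real version of `∫_Ω |z^β|²` -/
noncomputable def ms (Ω : Set (Fin n → ℂ)) (β : Fin n → ℤ) : ℝ := (nsq Ω (mono β)).toReal

theorem nsq_ne_top {w : (Fin n → ℂ) → ℂ} (h : MemLp w 2 (volume.restrict Ω)) : nsq Ω w ≠ ⊤ := by
  rw [← enorm_toLp_sq h]
  exact ENNReal.pow_ne_top enorm_ne_top

theorem norm_toLp_sq {w : (Fin n → ℂ) → ℂ} (h : MemLp w 2 (volume.restrict Ω)) :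
    ‖h.toLp w‖ ^ 2 = (nsq Ω w).toReal := by
  rw [← enorm_toLp_sq h, ENNReal.toReal_pow, toReal_enorm]

theorem ms_pos (hΩ : IsReinhardtDomain Ω) {β : Fin n → ℤ} (hβ : Good Ω β) : 0 < ms Ω β :=
  ENNReal.toReal_pos (nsq_mono_ne_zero hΩ β) (nsq_ne_top hβ.memLp)

theorem norm_monoB_sq {γ : Fin n → ℤ} (hγ : Good Ω γ) : ‖monoB hγ‖ ^ 2 = ms Ω γ :=
  norm_toLp_sq hγ.memLp

/-- `f_α \bar z^α z^γ` -/
noncomputable def wfun (a : ℂ) (α γ : Fin n → ℤ) (z : Fin n → ℂ) : ℂ :=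
  conj (a * mono α z) * mono γ z

theorem continuousOn_wfun {a : ℂ} {α γ : Fin n → ℤ} (hα : ∀ i, α i < 0 → ∀ z ∈ Ω, z i ≠ 0)
    (hγ : ∀ i, γ i < 0 → ∀ z ∈ Ω, z i ≠ 0) : ContinuousOn (wfun a α γ) Ω := by
  unfold wfun
  apply ContinuousOn.mul
  · exact Complex.continuous_conj.comp_continuousOn
      (continuousOn_const.mul (differentiableOn_mono hα).continuousOn)
  · exact (differentiableOn_mono hγ).continuousOn

theorem neg_of_coeff_ne_zero (hΩ : IsReinhardtDomain Ω) (hf : DifferentiableOn ℂ f Ω)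
    {α : Fin n → ℤ} (ha : coeff hΩ hf α ≠ 0) : ∀ i, α i < 0 → ∀ z ∈ Ω, z i ≠ 0 := by
  intro i hi z hz hzi
  exact ha (coeff_eq_zero hΩ hf α hi hz hzi)

theorem indicator_mul_left' (S : Set (Fin n → ℂ)) (w : (Fin n → ℂ) → ℂ) (z : Fin n → ℂ) :
    S.indicator (fun z => f z * w z) z = f z * S.indicator w z := by
  by_cases h : z ∈ S
  · rw [indicator_of_mem h, indicator_of_mem h]
  · rw [indicator_of_notMem h, indicator_of_notMem h, mul_zero]

theorem est_not_good (hΩ : IsReinhardtDomain Ω) (hb : Bornology.IsBounded Ω)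
    (hne : Ωᶜ.Nonempty) (hf : DifferentiableOn ℂ f Ω)
    {T : bergman Ω →L[ℂ] L2 Ω} (hD : Dense (hankelDomain Ω f))
    (hT : ∀ (u : bergman Ω) (hu : u ∈ hankelDomain Ω f), T u = hankel Ω f u hu)
    {α γ : Fin n → ℤ} (ha : coeff hΩ hf α ≠ 0) (hγ : Good Ω γ) (hβ : ¬ Good Ω (γ - α)) :
    nsq Ω (wfun (coeff hΩ hf α) α γ) ≤ ‖T (monoB hγ)‖ₑ ^ 2 := by
  have hcw : ContinuousOn (wfun (coeff hΩ hf α) α γ) Ω :=
    continuousOn_wfun (neg_of_coeff_ne_zero hΩ hf ha) hγ.neg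
  have hww : HasWeight Ω (γ - α) (wfun (coeff hΩ hf α) α γ) :=
    hasWeight_conj_mul Ω (coeff hΩ hf α) α γ
  refine nsq_le_of_test hΩ hb hne hcw (T (monoB hγ)) (fun j => ?_)
  have hm := memLp_indicator_exh hb hcw hΩ.isOpen j
  have hfm := memLp_indicator_exh hb (hf.continuousOn.mul hcw) hΩ.isOpen j
  have hfψ : ∀ z ∈ Ω, (exh Ω j).indicator (fun z => f z * wfun (coeff hΩ hf α) α γ z) z =
      f z * (exh Ω j).indicator (wfun (coeff hΩ hf α) α γ) z := fun z _ =>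
    indicator_mul_left' (f := f) _ _ z
  rw [test_identity hΩ hf (α := α) hγ (hasWeight_indicator hΩ hww j) hm hfm hfψ,
    defect_zero hΩ hb hne hD hT hβ (hasWeight_indicator hΩ hww j) hm hfm hfψ, sub_zero]
  rfl

theorem exists_test (hΩ : IsReinhardtDomain Ω) (hb : Bornology.IsBounded Ω)
    (hne : Ωᶜ.Nonempty) {β : Fin n → ℤ} (hβ : Good Ω β) :
    ∃ j, ∫ z in Ω, conj ((exh Ω j).indicator (mono β) z) * mono β z ≠ 0 := by
  by_contra hcon
  push Not at hcon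
  have h1 := nsq_le_of_test hΩ hb hne (differentiableOn_mono hβ.neg).continuousOn (0 : L2 Ω) (by
    intro j
    rw [hcon j]
    have h2 : ∫ z in Ω, conj ((exh Ω j).indicator (mono β) z) * (0 : L2 Ω) z =
        ∫ z in Ω, (0 : ℂ) := by
      refine integral_congr_ae ?_
      filter_upwards [Lp.coeFn_zero ℂ 2 (volume.restrict Ω)] with z hz
      rw [hz]
      simp
    rw [h2]
    simp)
  simp only [enorm_zero, ne_eq, OfNat.ofNat_ne_zero, not_false_eq_true, zero_pow,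
    nonpos_iff_eq_zero] at h1
  exact nsq_mono_ne_zero hΩ β h1

theorem est_good (hΩ : IsReinhardtDomain Ω) (hb : Bornology.IsBounded Ω)
    (hne : Ωᶜ.Nonempty) (hf : DifferentiableOn ℂ f Ω)
    {T : bergman Ω →L[ℂ] L2 Ω} (hD : Dense (hankelDomain Ω f))
    (hT : ∀ (u : bergman Ω) (hu : u ∈ hankelDomain Ω f), T u = hankel Ω f u hu)
    {α γ : Fin n → ℤ} (ha : coeff hΩ hf α ≠ 0) (hγ : Good Ω γ) (hβ : Good Ω (γ - α)) :
    ∃ c : ℂ, nsq Ω (fun z => wfun (coeff hΩ hf α) α γ z - c * mono (γ - α) z) ≤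
      ‖T (monoB hγ)‖ₑ ^ 2 := by
  obtain ⟨j0, hj0⟩ := exists_test hΩ hb hne hβ
  set b0 := ∫ z in Ω, conj ((exh Ω j0).indicator (mono (γ - α)) z) * mono (γ - α) z with hb0
  have hcβ : ContinuousOn (mono (γ - α)) Ω := (differentiableOn_mono hβ.neg).continuousOn
  have hm0 := memLp_indicator_exh hb hcβ hΩ.isOpen j0
  have hfm0 := memLp_indicator_exh hb (hf.continuousOn.mul hcβ) hΩ.isOpen j0
  have hfψ0 : ∀ z ∈ Ω, (exh Ω j0).indicator (fun z => f z * mono (γ - α) z) z =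
      f z * (exh Ω j0).indicator (mono (γ - α)) z := fun z _ =>
    indicator_mul_left' (f := f) _ _ z
  have hw0 : HasWeight Ω (γ - α) ((exh Ω j0).indicator (mono (γ - α))) :=
    hasWeight_indicator hΩ (hasWeight_mono Ω (γ - α)) j0
  set c : ℂ := defect T hm0 hfm0 (monoB hγ) / b0 with hc
  refine ⟨c, ?_⟩
  have hcW : ContinuousOn (wfun (coeff hΩ hf α) α γ) Ω :=
    continuousOn_wfun (neg_of_coeff_ne_zero hΩ hf ha) hγ.neg
  have hcw : ContinuousOn (fun z => wfun (coeff hΩ hf α) α γ z - c * mono (γ - α) z) Ω :=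
    hcW.sub (continuousOn_const.mul hcβ)
  have hww : HasWeight Ω (γ - α)
      (fun z => wfun (coeff hΩ hf α) α γ z - c * mono (γ - α) z) := by
    intro z hz t
    have h1 := hasWeight_conj_mul Ω (coeff hΩ hf α) α γ z hz t
    simp only [wfun]
    simp only at h1
    rw [h1, mono_act]
    ring
  refine nsq_le_of_test hΩ hb hne hcw (T (monoB hγ)) (fun j => ?_)
  have hm := memLp_indicator_exh hb hcw hΩ.isOpen j
  have hfm := memLp_indicator_exh hb (hf.continuousOn.mul hcw) hΩ.isOpen j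
  have hfψ : ∀ z ∈ Ω, (exh Ω j).indicator
      (fun z => f z * (wfun (coeff hΩ hf α) α γ z - c * mono (γ - α) z)) z =
      f z * (exh Ω j).indicator (fun z => wfun (coeff hΩ hf α) α γ z - c * mono (γ - α) z) z :=
    fun z _ => indicator_mul_left' (f := f) _ _ z
  have hwj := hasWeight_indicator hΩ hww j
  have hdef : defect T hm hfm (monoB hγ) = c * ∫ z in Ω,
      conj ((exh Ω j).indicator (fun z => wfun (coeff hΩ hf α) α γ z - c * mono (γ - α) z) z) *
        mono (γ - α) z := by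
    have h1 := defect_pair hΩ hD hT hwj hm hfm hfψ hw0 hm0 hfm0 hfψ0 (monoB hγ)
    rw [← hb0] at h1
    have hcb : c * b0 = defect T hm0 hfm0 (monoB hγ) := by
      rw [hc]; exact div_mul_cancel₀ _ hj0
    apply mul_right_cancel₀ hj0
    rw [h1, ← hcb]
    ring
  rw [test_identity hΩ hf (α := α) hγ hwj hm hfm hfψ, hdef, ← integral_const_mul,
    ← integral_sub]
  · refine integral_congr_ae (Eventually.of_forall fun z => ?_)
    simp only [wfun]
    ring
  · have hmW := memLp_indicator_exh hb hcW hΩ.isOpen j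
    refine (integrable_conj_mul hm hmW).congr (Eventually.of_forall fun z => ?_)
    simp only
    by_cases hz : z ∈ exh Ω j
    · rw [indicator_of_mem hz, indicator_of_mem hz]
      rfl
    · rw [indicator_of_notMem hz, indicator_of_notMem hz]
      simp
  · exact (integrable_conj_mul hm hβ.memLp).const_mul c

theorem norm_wfun {a : ℂ} {α γ : Fin n → ℤ} {z : Fin n → ℂ} (hz : ∀ i, z i ≠ 0) :
    ‖wfun a α γ z‖ = ‖a‖ * ‖mono (γ + α) z‖ := by
  rw [wfun, norm_mul, mono_add hz, norm_mul, RCLike.norm_conj, norm_mul]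
  ring

theorem measurable_mono (β : Fin n → ℤ) : Measurable (mono β : (Fin n → ℂ) → ℂ) := by
  unfold mono
  apply Finset.measurable_fun_prod
  intro i _
  exact (measurable_pi_apply i).pow_const (β i)

theorem memLp_of_wfun {a : ℂ} (ha : a ≠ 0) {α γ : Fin n → ℤ}
    (h : MemLp (wfun a α γ) 2 (volume.restrict Ω)) :
    MemLp (mono (γ + α)) 2 (volume.restrict Ω) := by
  refine MemLp.of_le_mul (c := ‖a‖⁻¹) h (measurable_mono _).aestronglyMeasurable ?_
  filter_upwards [ae_star (Ω := Ω)] with z hz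
  rw [norm_wfun hz, ← mul_assoc, inv_mul_cancel₀ (norm_ne_zero_iff.2 ha), one_mul]

theorem nsq_wfun {a : ℂ} {α γ : Fin n → ℤ} :
    nsq Ω (wfun a α γ) = ENNReal.ofReal (‖a‖ ^ 2) * nsq Ω (mono (γ + α)) := by
  rw [nsq, nsq, ← lintegral_const_mul' _ _ ENNReal.ofReal_ne_top]
  refine lintegral_congr_ae ?_
  filter_upwards [ae_star (Ω := Ω)] with z hz
  rw [← ofReal_norm, ← ofReal_norm, norm_wfun hz, ENNReal.ofReal_mul (norm_nonneg _), mul_pow,
    ← ENNReal.ofReal_pow (norm_nonneg _)]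

theorem toReal_nsq_wfun {a : ℂ} {α γ : Fin n → ℤ} :
    (nsq Ω (wfun a α γ)).toReal = ‖a‖ ^ 2 * ms Ω (γ + α) := by
  rw [nsq_wfun, ENNReal.toReal_mul, ENNReal.toReal_ofReal (by positivity), ms]

theorem good_add (hΩ : IsReinhardtDomain Ω) (hf : DifferentiableOn ℂ f Ω)
    {α γ : Fin n → ℤ} (ha : coeff hΩ hf α ≠ 0) (hγ : Good Ω γ)
    (h : MemLp (wfun (coeff hΩ hf α) α γ) 2 (volume.restrict Ω)) : Good Ω (γ + α) := by
  refine ⟨memLp_of_wfun ha h, ?_⟩
  intro i hi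
  rw [Pi.add_apply] at hi
  by_cases h1 : γ i < 0
  · exact hγ.neg i h1
  · exact neg_of_coeff_ne_zero hΩ hf ha i (by omega)

/-- an elementary inequality in inner product spaces -/
theorem norm_sub_smul_ge {E : Type*} [NormedAddCommGroup E] [InnerProductSpace ℂ E] (p q : E)
    (hq : q ≠ 0) (c : ℂ) :
    ‖p‖ ^ 2 - ‖(inner ℂ q p : ℂ)‖ ^ 2 / ‖q‖ ^ 2 ≤ ‖p - c • q‖ ^ 2 := by
  have hQ : 0 < ‖q‖ ^ 2 := by positivity
  set Q := ‖q‖ ^ 2 with hQdef
  have h1 : ‖p - c • q‖ ^ 2 = ‖p‖ ^ 2 - 2 * (c * inner ℂ p q).re + ‖c‖ ^ 2 * Q := by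
    rw [norm_sub_sq (𝕜 := ℂ), inner_smul_right, norm_smul, mul_pow]
    rfl
  have h2 : inner ℂ p q = conj (inner ℂ q p) := (inner_conj_symm p q).symm
  set d := inner ℂ q p with hd
  rw [h1, h2]
  have h3 : ‖d‖ ^ 2 = d.re ^ 2 + d.im ^ 2 := by
    rw [← Complex.normSq_eq_norm_sq, Complex.normSq_apply]; ring
  have h4 : ‖c‖ ^ 2 = c.re ^ 2 + c.im ^ 2 := by
    rw [← Complex.normSq_eq_norm_sq, Complex.normSq_apply]; ring
  have h5 : (c * conj d).re = c.re * d.re + c.im * d.im := by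
    simp [Complex.mul_re]
  rw [h3, h4, h5]
  rw [sub_le_iff_le_add, ← sub_le_iff_le_add', le_div_iff₀ hQ]
  nlinarith [sq_nonneg (d.re - c.re * Q), sq_nonneg (d.im - c.im * Q)]

theorem main_not_good (hΩ : IsReinhardtDomain Ω) (hb : Bornology.IsBounded Ω)
    (hne : Ωᶜ.Nonempty) (hf : DifferentiableOn ℂ f Ω)
    {T : bergman Ω →L[ℂ] L2 Ω} (hD : Dense (hankelDomain Ω f))
    (hT : ∀ (u : bergman Ω) (hu : u ∈ hankelDomain Ω f), T u = hankel Ω f u hu)
    {α γ : Fin n → ℤ} (ha : coeff hΩ hf α ≠ 0) (hγ : Good Ω γ) (hβ : ¬ Good Ω (γ - α)) :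
    Good Ω (γ + α) ∧ ‖coeff hΩ hf α‖ ^ 2 * ms Ω (γ + α) ≤ ‖T (monoB hγ)‖ ^ 2 := by
  have h1 := est_not_good hΩ hb hne hf hD hT ha hγ hβ
  have hcw : ContinuousOn (wfun (coeff hΩ hf α) α γ) Ω :=
    continuousOn_wfun (neg_of_coeff_ne_zero hΩ hf ha) hγ.neg
  have hfin : nsq Ω (wfun (coeff hΩ hf α) α γ) ≠ ⊤ :=
    ne_top_of_le_ne_top (ENNReal.pow_ne_top enorm_ne_top) h1
  have hmem : MemLp (wfun (coeff hΩ hf α) α γ) 2 (volume.restrict Ω) :=
    memLp_of_nsq (hcw.aestronglyMeasurable hΩ.isOpen.measurableSet) hfin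
  refine ⟨good_add hΩ hf ha hγ hmem, ?_⟩
  have h2 := ENNReal.toReal_mono (ENNReal.pow_ne_top enorm_ne_top) h1
  rw [toReal_nsq_wfun, ENNReal.toReal_pow, toReal_enorm] at h2
  exact h2

theorem main_good (hΩ : IsReinhardtDomain Ω) (hb : Bornology.IsBounded Ω)
    (hne : Ωᶜ.Nonempty) (hf : DifferentiableOn ℂ f Ω)
    {T : bergman Ω →L[ℂ] L2 Ω} (hD : Dense (hankelDomain Ω f))
    (hT : ∀ (u : bergman Ω) (hu : u ∈ hankelDomain Ω f), T u = hankel Ω f u hu)
    {α γ : Fin n → ℤ} (ha : coeff hΩ hf α ≠ 0) (hγ : Good Ω γ) (hβ : Good Ω (γ - α)) :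
    Good Ω (γ + α) ∧
      ‖coeff hΩ hf α‖ ^ 2 * (ms Ω (γ + α) - ms Ω γ ^ 2 / ms Ω (γ - α)) ≤ ‖T (monoB hγ)‖ ^ 2 := by
  obtain ⟨c, h1⟩ := est_good hΩ hb hne hf hD hT ha hγ hβ
  set a := coeff hΩ hf α with hadef
  have hcW : ContinuousOn (wfun a α γ) Ω :=
    continuousOn_wfun (neg_of_coeff_ne_zero hΩ hf ha) hγ.neg
  have hcβ : ContinuousOn (mono (γ - α)) Ω := (differentiableOn_mono hβ.neg).continuousOn
  have hcw : ContinuousOn (fun z => wfun a α γ z - c * mono (γ - α) z) Ω :=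
    hcW.sub (continuousOn_const.mul hcβ)
  have hfin : nsq Ω (fun z => wfun a α γ z - c * mono (γ - α) z) ≠ ⊤ :=
    ne_top_of_le_ne_top (ENNReal.pow_ne_top enorm_ne_top) h1
  have hmem1 : MemLp (fun z => wfun a α γ z - c * mono (γ - α) z) 2 (volume.restrict Ω) :=
    memLp_of_nsq (hcw.aestronglyMeasurable hΩ.isOpen.measurableSet) hfin
  have hmem : MemLp (wfun a α γ) 2 (volume.restrict Ω) := by
    have h2 := hmem1.add (hβ.memLp.const_mul c)
    refine h2.ae_eq (Eventually.of_forall fun z => ?_)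
    simp [Pi.add_apply]
  refine ⟨good_add hΩ hf ha hγ hmem, ?_⟩
  have h2 := ENNReal.toReal_mono (ENNReal.pow_ne_top enorm_ne_top) h1
  rw [ENNReal.toReal_pow, toReal_enorm] at h2
  refine le_trans ?_ h2
  rw [← norm_toLp_sq hmem1]
  have e1 : hmem1.toLp _ = hmem.toLp (wfun a α γ) - c • hβ.memLp.toLp (mono (γ - α)) := by
    rw [← MemLp.toLp_const_smul, ← MemLp.toLp_sub]
    rfl
  rw [e1]
  have hq : hβ.memLp.toLp (mono (γ - α)) ≠ 0 := by
    intro h0
    have := norm_toLp_sq hβ.memLp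
    rw [h0] at this
    have h3 := ms_pos hΩ hβ
    rw [ms, ← this] at h3
    simp at h3
  refine le_trans (le_of_eq ?_) (norm_sub_smul_ge _ _ hq c)
  rw [norm_toLp_sq hmem, norm_toLp_sq hβ.memLp, toReal_nsq_wfun]
  have e2 : inner ℂ (hβ.memLp.toLp (mono (γ - α))) (hmem.toLp (wfun a α γ)) =
      conj a * (ms Ω γ : ℂ) := by
    rw [inner_toLp]
    have e3 : ∫ z in Ω, conj (mono (γ - α) z) * (hmem.toLp (wfun a α γ)) z =
        ∫ z in Ω, conj a * (conj (mono γ z) * mono γ z) := by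
      refine integral_congr_ae ?_
      filter_upwards [hmem.coeFn_toLp, ae_star (Ω := Ω)] with z hz hz0
      rw [hz, wfun]
      have e4 : mono γ z = mono (γ - α) z * mono α z := by
        rw [← mono_add hz0, sub_add_cancel]
      have e5 : conj (mono γ z) = conj (mono (γ - α) z) * conj (mono α z) := by
        rw [e4, map_mul]
      rw [e5, map_mul]
      ring
    rw [e3, integral_const_mul]
    congr 1
    have e6 : inner ℂ (hγ.memLp.toLp (mono γ)) (hγ.memLp.toLp (mono γ)) =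
        ∫ z in Ω, conj (mono γ z) * mono γ z := by
      rw [inner_toLp]
      refine integral_congr_ae ?_
      filter_upwards [hγ.memLp.coeFn_toLp] with z hz
      rw [hz]
    rw [← e6, inner_self_eq_norm_sq_to_K, ms, ← norm_toLp_sq hγ.memLp]
    push_cast
    rfl
  rw [e2, norm_mul, RCLike.norm_conj, Complex.norm_real, mul_pow, Real.norm_eq_abs, sq_abs]
  rw [show (nsq Ω (mono (γ - α))).toReal = ms Ω (γ - α) from rfl]
  ring

end Pool.Agent.TH184.HS
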