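import Mathlib
import Pool.Agent.TH184.HS.Est

set_option autoImplicit false

open MeasureTheory Set Filter Metric
open scoped ComplexConjugate ENNReal Topology Real

namespace Pool.Agent.TH184.HS

variable {n : ℕ} {Ω : Set (Fin n → ℂ)} {f : (Fin n → ℂ) → ℂ}

theorem mono_nat_smul (α : Fin n → ℤ) (k : ℕ) (z : Fin n → ℂ) :
    mono ((k : ℤ) • α) z = mono α z ^ k := by
  unfold mono
  rw [← Finset.prod_pow]
  refine Finset.prod_congr rfl fun i _ => ?_
  rw [Pi.smul_apply, smul_eq_mul, mul_comm, zpow_mul, zpow_natCast]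

theorem norm_mono_line {α γ : Fin n → ℤ} (k : ℕ) {z : Fin n → ℂ} (hz : ∀ i, z i ≠ 0) :
    ‖mono (γ + (k : ℤ) • α) z‖ ^ 2 = ‖mono γ z‖ ^ 2 * (‖mono α z‖ ^ 2) ^ k := by
  rw [mono_add hz, mono_nat_smul, norm_mul, norm_pow]
  ring

/-- growth of the moments -/
theorem growth {α γ : Fin n → ℤ}
    (hgood : ∀ k : ℕ, Good Ω (γ + (k : ℤ) • α)) {b b' : ℝ} (hb : 0 < b) (hbb : b < b')
    (hpos : volume ({z | b' < ‖mono α z‖ ^ 2} ∩ Ω) ≠ 0) :
    ∃ k : ℕ, b * ms Ω (γ + (k : ℤ) • α) < ms Ω (γ + ((k + 1 : ℕ) : ℤ) • α) := by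
  by_contra hcon
  push Not at hcon
  set S : Set (Fin n → ℂ) := {z | b' < ‖mono α z‖ ^ 2} with hS
  have hSm : MeasurableSet S := measurableSet_lt measurable_const
    ((measurable_mono α).norm.pow_const 2)
  -- upper bound
  have hup : ∀ k : ℕ, ms Ω (γ + (k : ℤ) • α) ≤ b ^ k * ms Ω γ := by
    intro k
    induction k with
    | zero => simp
    | succ k ih =>
      calc ms Ω (γ + ((k + 1 : ℕ) : ℤ) • α) ≤ b * ms Ω (γ + (k : ℤ) • α) := hcon k
        _ ≤ b * (b ^ k * ms Ω γ) := by gcongr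
        _ = b ^ (k + 1) * ms Ω γ := by ring
  -- lower bound
  have hγ0 : Good Ω γ := by simpa using hgood 0
  set δ : ℝ≥0∞ := ∫⁻ z in S ∩ Ω, ‖mono γ z‖ₑ ^ 2 with hδ
  have hδtop : δ ≠ ⊤ := by
    refine ne_top_of_le_ne_top (nsq_ne_top hγ0.memLp) ?_
    exact lintegral_mono_set inter_subset_right
  have hδ0 : δ ≠ 0 := by
    intro h0
    rw [hδ, lintegral_eq_zero_iff' ((measurable_mono γ).enorm.pow_const 2).aemeasurable] at h0
    have h2 : ∀ᵐ z ∂((volume : Measure (Fin n → ℂ)).restrict (S ∩ Ω)), False := by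
      filter_upwards [h0, ae_star (Ω := S ∩ Ω)] with z hz hz0
      simp only [Pi.zero_apply, ne_eq, OfNat.ofNat_ne_zero, not_false_eq_true, pow_eq_zero_iff,
        enorm_eq_zero] at hz
      exact mono_ne_zero hz0 hz
    rw [ae_iff] at h2
    simp only [not_false_eq_true, ofPred_true] at h2
    rw [Measure.restrict_apply_univ] at h2
    exact hpos h2
  have hb' : 0 < b' := hb.trans hbb
  have hlow : ∀ k : ℕ, b' ^ k * δ.toReal ≤ ms Ω (γ + (k : ℤ) • α) := by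
    intro k
    have h1 : ENNReal.ofReal (b' ^ k) * δ ≤ nsq Ω (mono (γ + (k : ℤ) • α)) := by
      calc ENNReal.ofReal (b' ^ k) * δ
          = ∫⁻ z in S ∩ Ω, ENNReal.ofReal (b' ^ k) * ‖mono γ z‖ₑ ^ 2 := by
            rw [hδ, lintegral_const_mul' _ _ ENNReal.ofReal_ne_top]
        _ ≤ ∫⁻ z in S ∩ Ω, ‖mono (γ + (k : ℤ) • α) z‖ₑ ^ 2 := by
            refine lintegral_mono_ae ?_
            have hmem : ∀ᵐ z ∂((volume : Measure (Fin n → ℂ)).restrict (S ∩ Ω)), z ∈ S := by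
              have : ∀ᵐ z ∂(((volume : Measure (Fin n → ℂ)).restrict Ω).restrict S), z ∈ S :=
                ae_restrict_mem hSm
              rwa [Measure.restrict_restrict hSm] at this
            filter_upwards [ae_star (Ω := S ∩ Ω), hmem] with z hz0 hzS
            rw [← ofReal_norm, ← ofReal_norm, ← ENNReal.ofReal_pow (norm_nonneg _),
              ← ENNReal.ofReal_pow (norm_nonneg _), ← ENNReal.ofReal_mul (by positivity),
              norm_mono_line k hz0]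
            apply ENNReal.ofReal_le_ofReal
            have h3 : b' ≤ ‖mono α z‖ ^ 2 := le_of_lt hzS
            have h4 : b' ^ k ≤ (‖mono α z‖ ^ 2) ^ k := pow_le_pow_left₀ hb'.le h3 k
            calc b' ^ k * ‖mono γ z‖ ^ 2 ≤ (‖mono α z‖ ^ 2) ^ k * ‖mono γ z‖ ^ 2 := by gcongr
              _ = _ := by ring
        _ ≤ nsq Ω (mono (γ + (k : ℤ) • α)) := lintegral_mono_set inter_subset_right
    have h2 := ENNReal.toReal_mono (nsq_ne_top (hgood k).memLp) h1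
    rw [ENNReal.toReal_mul, ENNReal.toReal_ofReal (by positivity)] at h2
    exact h2
  have hδp : 0 < δ.toReal := ENNReal.toReal_pos hδ0 hδtop
  have h1 : 1 < b' / b := (one_lt_div hb).2 hbb
  obtain ⟨k, hk⟩ := pow_unbounded_of_one_lt (ms Ω γ / δ.toReal) h1
  have h2 := (hlow k).trans (hup k)
  rw [div_pow, div_lt_div_iff₀ hδp (by positivity)] at hk
  linarith

/-- the good exponents include all nonnegative ones -/
theorem good_of_nonneg (hΩ : IsReinhardtDomain Ω) (hb : Bornology.IsBounded Ω)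
    {β : Fin n → ℤ} (hβ : ∀ i, 0 ≤ β i) : Good Ω β := by
  refine ⟨?_, fun i hi => absurd (hβ i) (not_le.2 hi)⟩
  obtain ⟨R, hR⟩ := hb.exists_norm_le
  have hfin : volume Ω < ⊤ := hb.measure_lt_top
  have : IsFiniteMeasure (volume.restrict Ω : Measure (Fin n → ℂ)) := ⟨by
    rw [Measure.restrict_apply_univ]; exact hfin⟩
  refine MemLp.of_bound (measurable_mono β).aestronglyMeasurable (∏ i, (max R 0) ^ β i) ?_
  filter_upwards [ae_restrict_mem hΩ.isOpen.measurableSet] with z hz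
  rw [norm_mono]
  apply Finset.prod_le_prod (fun i _ => by positivity)
  intro i _
  have h1 : ‖z i‖ ≤ max R 0 := (norm_le_pi_norm z i).trans ((hR z hz).trans (le_max_left _ _))
  obtain ⟨k, hk⟩ := Int.eq_ofNat_of_zero_le (hβ i)
  rw [hk, zpow_natCast, zpow_natCast]
  exact pow_le_pow_left₀ (norm_nonneg _) h1 k

open Classical in
/-- `‖T e_γ‖²` for the normalised monomial (`0` if the monomial is not in `A²`) -/
noncomputable def tt (T : bergman Ω →L[ℂ] L2 Ω) (γ : Fin n → ℤ) : ℝ :=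
  if h : Good Ω γ then ‖T (monoB h)‖ ^ 2 / ms Ω γ else 0

theorem tt_nonneg (T : bergman Ω →L[ℂ] L2 Ω) (γ : Fin n → ℤ) : 0 ≤ tt T γ := by
  unfold tt
  split_ifs
  · exact div_nonneg (by positivity) ENNReal.toReal_nonneg
  · exact le_rfl

/-- The hypotheses, bundled. -/
structure Ctx (Ω : Set (Fin n → ℂ)) (f : (Fin n → ℂ) → ℂ) (T : bergman Ω →L[ℂ] L2 Ω) : Prop where
  dom : IsReinhardtDomain Ω
  bdd : Bornology.IsBounded Ω
  ne : Ωᶜ.Nonempty
  hol : DifferentiableOn ℂ f Ω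
  dense : Dense (hankelDomain Ω f)
  ext : ∀ (u : bergman Ω) (hu : u ∈ hankelDomain Ω f), T u = hankel Ω f u hu

variable {T : bergman Ω →L[ℂ] L2 Ω}

theorem Ctx.good_succ (C : Ctx Ω f T) {α γ : Fin n → ℤ} (ha : coeff C.dom C.hol α ≠ 0)
    (hγ : Good Ω γ) : Good Ω (γ + α) := by
  by_cases hβ : Good Ω (γ - α)
  · exact (main_good C.dom C.bdd C.ne C.hol C.dense C.ext ha hγ hβ).1
  · exact (main_not_good C.dom C.bdd C.ne C.hol C.dense C.ext ha hγ hβ).1

theorem Ctx.good_line (C : Ctx Ω f T) {α γ : Fin n → ℤ} (ha : coeff C.dom C.hol α ≠ 0)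
    (hγ : Good Ω γ) (k : ℕ) : Good Ω (γ + (k : ℤ) • α) := by
  induction k with
  | zero => simpa using hγ
  | succ k ih =>
    have := C.good_succ ha ih
    rw [add_assoc] at this
    convert this using 2
    push_cast
    rw [add_smul, one_smul]

/-- the ratio of consecutive moments -/
noncomputable def rat (Ω : Set (Fin n → ℂ)) (α γ : Fin n → ℤ) : ℝ := ms Ω (γ + α) / ms Ω γ

theorem Ctx.tt_bottom (C : Ctx Ω f T) {α γ : Fin n → ℤ} (ha : coeff C.dom C.hol α ≠ 0)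
    (hγ : Good Ω γ) (hβ : ¬ Good Ω (γ - α)) :
    ‖coeff C.dom C.hol α‖ ^ 2 * rat Ω α γ ≤ tt T γ := by
  have h := (main_not_good C.dom C.bdd C.ne C.hol C.dense C.ext ha hγ hβ).2
  have hp := ms_pos C.dom hγ
  rw [tt, dif_pos hγ, rat, mul_div_assoc', div_le_div_iff_of_pos_right hp]
  exact h

theorem Ctx.tt_step (C : Ctx Ω f T) {α γ : Fin n → ℤ} (ha : coeff C.dom C.hol α ≠ 0)
    (hβ : Good Ω γ) :
    ‖coeff C.dom C.hol α‖ ^ 2 * (rat Ω α (γ + α) - rat Ω α γ) ≤ tt T (γ + α) := by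
  have hγ : Good Ω (γ + α) := C.good_succ ha hβ
  have hβ' : Good Ω (γ + α - α) := by rwa [add_sub_cancel_right]
  have h := (main_good C.dom C.bdd C.ne C.hol C.dense C.ext ha hγ hβ').2
  rw [add_sub_cancel_right] at h
  have hp := ms_pos C.dom hγ
  rw [tt, dif_pos hγ, le_div_iff₀ hp]
  refine le_trans (le_of_eq ?_) h
  rw [rat, rat]
  have hp0 := ms_pos C.dom hβ
  field_simp

theorem Ctx.telescope (C : Ctx Ω f T) {α γ : Fin n → ℤ} (ha : coeff C.dom C.hol α ≠ 0)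
    (hγ : Good Ω γ) (N : ℕ) :
    ‖coeff C.dom C.hol α‖ ^ 2 * (rat Ω α (γ + (N : ℤ) • α) - rat Ω α γ) + tt T γ ≤
      ∑ j ∈ Finset.range (N + 1), tt T (γ + (j : ℤ) • α) := by
  induction N with
  | zero => simp
  | succ N ih =>
    rw [Finset.sum_range_succ]
    have h1 := C.tt_step ha (C.good_line ha hγ N)
    have e1 : γ + (N : ℤ) • α + α = γ + ((N + 1 : ℕ) : ℤ) • α := by
      push_cast
      rw [add_smul, one_smul, add_assoc]
    rw [e1] at h1
    have h2 : ‖coeff C.dom C.hol α‖ ^ 2 * (rat Ω α (γ + ((N + 1 : ℕ) : ℤ) • α) - rat Ω α γ) =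
        ‖coeff C.dom C.hol α‖ ^ 2 * (rat Ω α (γ + (N : ℤ) • α) - rat Ω α γ) +
        ‖coeff C.dom C.hol α‖ ^ 2 *
          (rat Ω α (γ + ((N + 1 : ℕ) : ℤ) • α) - rat Ω α (γ + (N : ℤ) • α)) := by ring
    rw [h2]
    linarith

/-- Every line carries a fixed amount of the Hilbert-Schmidt norm. -/
theorem Ctx.line (C : Ctx Ω f T) {α γ : Fin n → ℤ} (ha : coeff C.dom C.hol α ≠ 0)
    (hγ : Good Ω γ) {a₁ a₂ b₁ b₂ : ℝ} (h0 : 0 < a₁) (h1 : a₁ < a₂) (h2 : a₂ < b₁) (h3 : b₁ < b₂)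
    (hlow : volume ({z | a₁⁻¹ < ‖mono (-α) z‖ ^ 2} ∩ Ω) ≠ 0)
    (hhigh : volume ({z | b₂ < ‖mono α z‖ ^ 2} ∩ Ω) ≠ 0) :
    ∃ (k₀ : ℤ) (N : ℕ), ‖coeff C.dom C.hol α‖ ^ 2 * (b₁ - a₂) ≤
      ∑ j ∈ Finset.range N, tt T (γ + (k₀ + (j : ℤ)) • α) := by
  have hA : 0 < ‖coeff C.dom C.hol α‖ ^ 2 := by
    have := norm_pos_iff.2 ha
    positivity
  have ha2 : 0 < a₂ := h0.trans h1
  have hb1 : 0 < b₁ := ha2.trans h2
  by_cases hall : ∀ k : ℕ, Good Ω (γ + (k : ℤ) • (-α))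
  · -- the line is infinite downwards
    obtain ⟨k2, hk2⟩ := growth hall (b := a₂⁻¹) (b' := a₁⁻¹) (inv_pos.2 ha2)
      (inv_strictAnti₀ h0 h1) hlow
    set γ0 := γ + ((k2 + 1 : ℕ) : ℤ) • (-α) with hγ0
    have hγ0g : Good Ω γ0 := hall (k2 + 1)
    have e1 : γ0 + α = γ + (k2 : ℤ) • (-α) := by
      rw [hγ0]
      push_cast
      rw [add_smul, one_smul]
      abel
    have hr0 : rat Ω α γ0 ≤ a₂ := by
      rw [rat, e1, div_le_iff₀ (ms_pos C.dom hγ0g)]
      rw [inv_mul_lt_iff₀ ha2] at hk2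
      exact hk2.le
    obtain ⟨k1, hk1⟩ := growth (C.good_line ha hγ0g) hb1 h3 hhigh
    have hr1 : b₁ ≤ rat Ω α (γ0 + (k1 : ℤ) • α) := by
      rw [rat, le_div_iff₀ (ms_pos C.dom (C.good_line ha hγ0g k1))]
      have e2 : γ0 + (k1 : ℤ) • α + α = γ0 + ((k1 + 1 : ℕ) : ℤ) • α := by
        push_cast
        rw [add_smul, one_smul, add_assoc]
      rw [e2]
      exact hk1.le
    have ht := C.telescope ha hγ0g k1
    refine ⟨-((k2 + 1 : ℕ) : ℤ), k1 + 1, ?_⟩
    have e3 : ∀ j : ℕ, γ + (-((k2 + 1 : ℕ) : ℤ) + (j : ℤ)) • α = γ0 + (j : ℤ) • α := by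
      intro j
      rw [hγ0, add_smul, neg_smul, smul_neg]
      abel
    simp_rw [e3]
    refine le_trans ?_ ht
    have := tt_nonneg T γ0
    have h5 : ‖coeff C.dom C.hol α‖ ^ 2 * (b₁ - a₂) ≤
        ‖coeff C.dom C.hol α‖ ^ 2 * (rat Ω α (γ0 + (k1 : ℤ) • α) - rat Ω α γ0) := by
      apply mul_le_mul_of_nonneg_left _ hA.le
      linarith
    linarith
  · -- the line has a bottom
    push Not at hall
    classical
    let m := Nat.find hall
    have hm : ¬ Good Ω (γ + (m : ℤ) • (-α)) := Nat.find_spec hall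
    have hm0 : m ≠ 0 := by
      intro h
      rw [h] at hm
      apply hm
      simpa using hγ
    obtain ⟨m', hm'⟩ := Nat.exists_eq_succ_of_ne_zero hm0
    have hgm' : Good Ω (γ + (m' : ℤ) • (-α)) := by
      by_contra h
      have := Nat.find_min' hall h
      change m ≤ m' at this
      omega
    set γ0 := γ + (m' : ℤ) • (-α) with hγ0
    have hbot : ¬ Good Ω (γ0 - α) := by
      have e1 : γ0 - α = γ + (m : ℤ) • (-α) := by
        rw [hγ0, hm']
        push_cast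
        rw [add_smul, one_smul]
        abel
      rw [e1]
      exact hm
    have htb := C.tt_bottom ha hgm' hbot
    obtain ⟨k1, hk1⟩ := growth (C.good_line ha hgm') hb1 h3 hhigh
    have hr1 : b₁ ≤ rat Ω α (γ0 + (k1 : ℤ) • α) := by
      rw [rat, le_div_iff₀ (ms_pos C.dom (C.good_line ha hgm' k1))]
      have e2 : γ0 + (k1 : ℤ) • α + α = γ0 + ((k1 + 1 : ℕ) : ℤ) • α := by
        push_cast
        rw [add_smul, one_smul, add_assoc]
      rw [e2]
      exact hk1.le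
    have ht := C.telescope ha hgm' k1
    refine ⟨-(m' : ℤ), k1 + 1, ?_⟩
    have e3 : ∀ j : ℕ, γ + (-(m' : ℤ) + (j : ℤ)) • α = γ0 + (j : ℤ) • α := by
      intro j
      rw [hγ0, add_smul, neg_smul, smul_neg]
      abel
    simp_rw [e3]
    refine le_trans ?_ ht
    have h6 : ‖coeff C.dom C.hol α‖ ^ 2 * (b₁ - a₂) ≤
        ‖coeff C.dom C.hol α‖ ^ 2 * rat Ω α (γ0 + (k1 : ℤ) • α) := by
      apply mul_le_mul_of_nonneg_left _ hA.le
      linarith
    have h7 : ‖coeff C.dom C.hol α‖ ^ 2 * (rat Ω α (γ0 + (k1 : ℤ) • α) - rat Ω α γ0) =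
        ‖coeff C.dom C.hol α‖ ^ 2 * rat Ω α (γ0 + (k1 : ℤ) • α) -
        ‖coeff C.dom C.hol α‖ ^ 2 * rat Ω α γ0 := by ring
    rw [h7]
    linarith

end Pool.Agent.TH184.HS
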