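import Mathlib
import Pool.Agent.TH184.HS.Line
import Pool.Agent.TH184.HS.HSLem

set_option autoImplicit false

open MeasureTheory Set Filter Metric
open scoped ComplexConjugate ENNReal Topology Real

namespace Pool.Agent.TH184.HS

variable {n : ℕ} {Ω : Set (Fin n → ℂ)} {f : (Fin n → ℂ) → ℂ}

theorem integral_mFourier {δ : Fin n → ℤ} (hδ : δ ≠ 0) :
    ∫ t, UnitAddTorus.mFourier δ t ∂(tm n) = 0 := by
  obtain ⟨i, hi⟩ := Function.ne_iff.1 hδ
  rw [Pi.zero_apply] at hi
  set s : Tor n := Pi.single i (((1 / (2 * (δ i : ℝ)) : ℝ)) : UnitAddCircle) with hs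
  have hχ : UnitAddTorus.mFourier δ s = -1 := by
    rw [hs, mFourier_single, fourier_coe_apply]
    rw [← Complex.exp_pi_mul_I]
    congr 1
    push_cast
    have : (δ i : ℂ) ≠ 0 := by exact_mod_cast hi
    field_simp
  have h1 := integral_add_right_eq_self (μ := tm n) (fun t => UnitAddTorus.mFourier δ t) s
  simp_rw [mFourier_add_apply, hχ] at h1
  rw [integral_mul_const] at h1
  have h2 : 2 * ∫ t, UnitAddTorus.mFourier δ t ∂(tm n) = 0 := by linear_combination -h1
  simpa using h2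

theorem comp_mono_ne {β γ : Fin n → ℤ} (h : β ≠ γ) (z : Fin n → ℂ) : comp β (mono γ) z = 0 := by
  unfold comp
  have h1 : ∀ t : Tor n, UnitAddTorus.mFourier (-β) t * mono γ (act t z) =
      UnitAddTorus.mFourier (γ - β) t * mono γ z := by
    intro t
    rw [mono_act, ← mul_assoc, ← UnitAddTorus.mFourier_add]
    congr 3
    abel
  simp_rw [h1]
  rw [integral_mul_const, integral_mFourier (sub_ne_zero.2 h.symm), zero_mul]

theorem inner_monoB_ne (hΩ : IsReinhardtDomain Ω) {β γ : Fin n → ℤ} (hβ : Good Ω β)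
    (hγ : Good Ω γ) (h : β ≠ γ) : inner ℂ (monoB hβ) (monoB hγ) = (0 : ℂ) := by
  have h1 : (inner ℂ (monoB hβ) (monoB hγ) : ℂ) =
      inner ℂ (hβ.memLp.toLp (mono β)) (hγ.memLp.toLp (mono γ)) := rfl
  rw [h1, inner_toLp]
  have h2 : ∫ z in Ω, conj (mono β z) * (hγ.memLp.toLp (mono γ)) z =
      ∫ z in Ω, conj (mono β z) * mono γ z := by
    refine integral_congr_ae ?_
    filter_upwards [hγ.memLp.coeFn_toLp] with z hz
    rw [hz]
  rw [h2, pairing hΩ (hasWeight_mono Ω β) (integrable_conj_mul hβ.memLp hγ.memLp)]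
  simp_rw [comp_mono_ne h]
  simp

/-- the normalised monomials -/
noncomputable def eB (x : {γ : Fin n → ℤ // Good Ω γ}) : bergman Ω :=
  ((‖monoB x.2‖ : ℂ))⁻¹ • monoB x.2

theorem norm_monoB_pos (hΩ : IsReinhardtDomain Ω) {γ : Fin n → ℤ} (hγ : Good Ω γ) :
    0 < ‖monoB hγ‖ := by
  have h1 := norm_monoB_sq hγ
  have h2 := ms_pos hΩ hγ
  rw [← h1] at h2
  by_contra h
  have h3 : ‖monoB hγ‖ = 0 := le_antisymm (not_lt.1 h) (norm_nonneg _)
  rw [h3] at h2
  norm_num at h2

theorem inner_smul_smul_zero {E : Type*} [NormedAddCommGroup E] [InnerProductSpace ℂ E]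
    {x y : E} (h : inner ℂ x y = (0 : ℂ)) (a b : ℂ) : inner ℂ (a • x) (b • y) = (0 : ℂ) := by
  rw [inner_smul_left, inner_smul_right, h]
  simp

theorem orthonormal_eB (hΩ : IsReinhardtDomain Ω) :
    Orthonormal ℂ (eB : {γ : Fin n → ℤ // Good Ω γ} → bergman Ω) := by
  constructor
  · intro x
    have h := norm_monoB_pos hΩ x.2
    rw [eB, norm_smul, norm_inv, Complex.norm_real, norm_norm, inv_mul_cancel₀ h.ne']
  · intro x y hxy
    change (inner ℂ (eB x) (eB y) : ℂ) = 0
    exact inner_smul_smul_zero (inner_monoB_ne hΩ x.2 y.2 (fun h => hxy (Subtype.ext h))) _ _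

variable {T : bergman Ω →L[ℂ] L2 Ω}

theorem tt_eq (x : {γ : Fin n → ℤ // Good Ω γ}) : tt T x.1 = ‖T (eB x)‖ ^ 2 := by
  rw [tt, dif_pos x.2, eB, map_smul, norm_smul, norm_inv, Complex.norm_real, norm_norm, mul_pow,
    ← norm_monoB_sq x.2, inv_pow, div_eq_mul_inv, mul_comm]

theorem sum_tt_le (hΩ : IsReinhardtDomain Ω) {ι : Type} (e : HilbertBasis ι ℂ (bergman Ω))
    (hs : Summable fun k => ‖T (e k)‖ ^ 2) (F : Finset (Fin n → ℤ)) :
    ∑ δ ∈ F, tt T δ ≤ ∑' k, ‖T (e k)‖ ^ 2 := by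
  classical
  have h1 : ∑ δ ∈ F, tt T δ = ∑ δ ∈ F with Good Ω δ, tt T δ := by
    rw [Finset.sum_filter]
    refine Finset.sum_congr rfl fun δ _ => ?_
    split_ifs with h
    · rfl
    · rw [tt, dif_neg h]
  have h2 : ∑ δ ∈ F with Good Ω δ, tt T δ = ∑ x ∈ F.subtype (Good Ω), tt T x.1 := by
    rw [← Finset.sum_subtype_eq_sum_filter]
  rw [h1, h2]
  simp_rw [tt_eq]
  exact hs_bound T e hs (orthonormal_eB hΩ) _

/-- a domain on which `|z^α|²` takes small and large values on sets of positive measure -/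
theorem exists_thresholds (hΩ : IsReinhardtDomain Ω) {α : Fin n → ℤ} (hα : α ≠ 0) :
    ∃ a₁ a₂ b₁ b₂ : ℝ, 0 < a₁ ∧ a₁ < a₂ ∧ a₂ < b₁ ∧ b₁ < b₂ ∧
      volume ({z | a₁⁻¹ < ‖mono (-α) z‖ ^ 2} ∩ Ω) ≠ 0 ∧
      volume ({z | b₂ < ‖mono α z‖ ^ 2} ∩ Ω) ≠ 0 := by
  classical
  -- two points with different values
  obtain ⟨z, hzΩ, hz0⟩ := dense_star.inter_open_nonempty Ω hΩ.isOpen hΩ.isConnected.1
  obtain ⟨j, hj⟩ := Function.ne_iff.1 hα
  rw [Pi.zero_apply] at hj
  have hcont : Continuous fun s : ℝ => Function.update z j (((1 + s : ℝ) : ℂ) * z j) := by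
    apply continuous_const.update
    fun_prop
  have h0 : (fun s : ℝ => Function.update z j (((1 + s : ℝ) : ℂ) * z j)) 0 = z := by
    simp
  have hnhd : ∀ᶠ s in 𝓝 (0 : ℝ), Function.update z j (((1 + s : ℝ) : ℂ) * z j) ∈ Ω := by
    apply hcont.continuousAt.eventually
    rw [h0]
    exact hΩ.isOpen.mem_nhds hzΩ
  obtain ⟨s, hs0, hsΩ⟩ : ∃ s : ℝ, 0 < s ∧
      Function.update z j (((1 + s : ℝ) : ℂ) * z j) ∈ Ω := by
    obtain ⟨ε, hε, h⟩ := Metric.eventually_nhds_iff.1 hnhd
    refine ⟨ε / 2, half_pos hε, h ?_⟩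
    rw [dist_zero_right, Real.norm_of_nonneg (half_pos hε).le]
    linarith
  set w := Function.update z j (((1 + s : ℝ) : ℂ) * z j) with hw
  have hw0 : ∀ i, w i ≠ 0 := by
    intro i
    by_cases h : i = j
    · subst h
      rw [hw, Function.update_self]
      apply mul_ne_zero _ (hz0 i)
      have : (0 : ℝ) < 1 + s := by linarith
      exact_mod_cast this.ne'
    · rw [hw, Function.update_of_ne h]
      exact hz0 i
  have hval : ‖mono α w‖ = (1 + s) ^ α j * ‖mono α z‖ := by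
    have e1 : z = Function.update z j (z j) := (Function.update_eq_self j z).symm
    conv_rhs => rw [e1]
    rw [hw, mono_update, mono_update, mul_zpow, norm_mul, norm_mul, norm_mul, norm_zpow,
      Complex.norm_real, Real.norm_of_nonneg (by linarith)]
    ring
  have hne : ‖mono α w‖ ≠ ‖mono α z‖ := by
    rw [hval]
    intro h
    have hpz : 0 < ‖mono α z‖ := norm_pos_iff.2 (mono_ne_zero hz0)
    have h1 : (1 + s) ^ α j = 1 := by
      have := mul_right_cancel₀ hpz.ne' (h.trans (one_mul _).symm)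
      exact this
    have h2 : (1 : ℝ) < 1 + s := by linarith
    rcases lt_trichotomy (α j) 0 with h3 | h3 | h3
    · have := zpow_lt_one_of_neg₀ h2 h3
      linarith
    · exact hj h3
    · have := one_lt_zpow₀ h2 h3
      linarith
  -- order them
  obtain ⟨p, q, hpΩ, hqΩ, hp0, hq0, hlt⟩ : ∃ p q : Fin n → ℂ, p ∈ Ω ∧ q ∈ Ω ∧ (∀ i, p i ≠ 0) ∧
      (∀ i, q i ≠ 0) ∧ ‖mono α p‖ < ‖mono α q‖ := by
    rcases lt_or_gt_of_ne hne with h | h
    · exact ⟨w, z, hsΩ, hzΩ, hw0, hz0, h⟩
    · exact ⟨z, w, hzΩ, hsΩ, hz0, hw0, h⟩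
  have hpp : 0 < ‖mono α p‖ := norm_pos_iff.2 (mono_ne_zero hp0)
  have hlt2 : ‖mono α p‖ ^ 2 < ‖mono α q‖ ^ 2 := by nlinarith
  set x := ‖mono α p‖ ^ 2 with hx
  set y := ‖mono α q‖ ^ 2 with hy
  have hx0 : 0 < x := by positivity
  have hopen : IsOpen (Ω ∩ {z : Fin n → ℂ | ∀ i, z i ≠ 0}) := by
    apply hΩ.isOpen.inter
    simp only [Set.ofPred_forall]
    refine isOpen_iInter_of_finite fun i => ?_
    exact isOpen_ne_fun (continuous_apply i) continuous_const
  have hcm : ∀ β : Fin n → ℤ, ContinuousOn (fun z : Fin n → ℂ => ‖mono β z‖ ^ 2)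
      (Ω ∩ {z : Fin n → ℂ | ∀ i, z i ≠ 0}) := by
    intro β
    have := (differentiableOn_mono (Ω := Ω ∩ {z : Fin n → ℂ | ∀ i, z i ≠ 0}) (β := β)
      (fun i _ z hz => hz.2 i)).continuousOn
    exact this.norm.pow 2
  have hpos : ∀ (β : Fin n → ℤ) (r : ℝ) (v : Fin n → ℂ), v ∈ Ω → (∀ i, v i ≠ 0) →
      r < ‖mono β v‖ ^ 2 → volume ({z | r < ‖mono β z‖ ^ 2} ∩ Ω) ≠ 0 := by
    intro β r v hvΩ hv0 hrv
    have hU : IsOpen ((Ω ∩ {z : Fin n → ℂ | ∀ i, z i ≠ 0}) ∩
        (fun z : Fin n → ℂ => ‖mono β z‖ ^ 2) ⁻¹' Ioi r) :=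
      (hcm β).isOpen_inter_preimage hopen isOpen_Ioi
    have hvol := hU.measure_pos volume ⟨v, ⟨hvΩ, hv0⟩, hrv⟩
    refine (lt_of_lt_of_le hvol (measure_mono ?_)).ne'
    rintro z ⟨⟨hz1, _⟩, hz3⟩
    exact ⟨hz3, hz1⟩
  refine ⟨x + (y - x) / 5, x + 2 * (y - x) / 5, x + 3 * (y - x) / 5, x + 4 * (y - x) / 5,
    by linarith, by linarith, by linarith, by linarith, ?_, ?_⟩
  · apply hpos (-α) _ p hpΩ hp0
    have h1 : ‖mono (-α) p‖ ^ 2 = x⁻¹ := by
      have h2 : mono (-α) p * mono α p = 1 := by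
        rw [← mono_add hp0, neg_add_cancel, mono_zero]
      have h3 : ‖mono (-α) p‖ * ‖mono α p‖ = 1 := by rw [← norm_mul, h2, norm_one]
      rw [hx, ← inv_pow, ← eq_inv_of_mul_eq_one_left h3]
    rw [h1]
    exact inv_strictAnti₀ hx0 (by linarith)
  · apply hpos α _ q hqΩ hq0
    rw [← hy]
    linarith

/-- all nonconstant Laurent coefficients vanish -/
theorem Ctx.coeff_zero (C : Ctx Ω f T) (hn : 2 ≤ n) (hHS : IsHilbertSchmidt T)
    {α : Fin n → ℤ} (hα : α ≠ 0) : coeff C.dom C.hol α = 0 := by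
  classical
  by_contra ha
  obtain ⟨ι, e, hs⟩ := hHS
  obtain ⟨a₁, a₂, b₁, b₂, h0, h1, h2, h3, hlow, hhigh⟩ := exists_thresholds C.dom hα
  obtain ⟨j, hj⟩ := Function.ne_iff.1 hα
  rw [Pi.zero_apply] at hj
  have hnt : Nontrivial (Fin n) := Fin.nontrivial_iff_two_le.2 hn
  obtain ⟨i, hij⟩ := exists_ne j
  have hgood : ∀ s : ℕ, Good Ω ((s : ℤ) • (Pi.single i (1 : ℤ) : Fin n → ℤ)) := by
    intro s
    apply good_of_nonneg C.dom C.bdd
    intro l
    rw [Pi.smul_apply, smul_eq_mul]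
    by_cases h : l = i
    · subst h; simp
    · rw [Pi.single_eq_of_ne h]; simp
  choose k₀ N hN using fun s : ℕ => C.line ha (hgood s) h0 h1 h2 h3 hlow hhigh
  have hε : 0 < ‖coeff C.dom C.hol α‖ ^ 2 * (b₁ - a₂) := by
    have := norm_pos_iff.2 ha
    have h4 : 0 < b₁ - a₂ := by linarith
    positivity
  obtain ⟨M, hM⟩ := exists_nat_gt
    ((∑' k, ‖T (e k)‖ ^ 2) / (‖coeff C.dom C.hol α‖ ^ 2 * (b₁ - a₂)))
  rw [div_lt_iff₀ hε] at hM
  let g : (Σ _ : ℕ, ℕ) → (Fin n → ℤ) := fun x =>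
    (x.1 : ℤ) • (Pi.single i (1 : ℤ) : Fin n → ℤ) + (k₀ x.1 + (x.2 : ℤ)) • α
  have hginj : Function.Injective g := by
    rintro ⟨s, a⟩ ⟨s', a'⟩ h
    simp only [g] at h
    have hj' := congrFun h j
    simp only [Pi.add_apply, Pi.smul_apply, smul_eq_mul, Pi.single_eq_of_ne hij.symm, mul_zero,
      zero_add] at hj'
    have hk := mul_right_cancel₀ hj hj'
    have hi' := congrFun h i
    simp only [Pi.add_apply, Pi.smul_apply, smul_eq_mul, Pi.single_eq_same, mul_one] at hi'
    rw [hk] at hi'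
    have hss : s = s' := by
      have := add_right_cancel hi'
      exact_mod_cast this
    subst hss
    have haa : a = a' := by
      have := add_left_cancel hk
      exact_mod_cast this
    rw [haa]
  have hsum : ∑ s ∈ Finset.range M, ∑ a ∈ Finset.range (N s), tt T (g ⟨s, a⟩) ≤
      ∑' k, ‖T (e k)‖ ^ 2 := by
    rw [← Finset.sum_sigma (Finset.range M) (fun s => Finset.range (N s))
      (fun x => tt T (g x))]
    rw [← Finset.sum_image (f := fun δ => tt T δ) (g := g) (hginj.injOn)]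
    exact sum_tt_le C.dom e hs _
  have hlb : (M : ℝ) * (‖coeff C.dom C.hol α‖ ^ 2 * (b₁ - a₂)) ≤
      ∑ s ∈ Finset.range M, ∑ a ∈ Finset.range (N s), tt T (g ⟨s, a⟩) := by
    calc (M : ℝ) * (‖coeff C.dom C.hol α‖ ^ 2 * (b₁ - a₂))
        = ∑ _s ∈ Finset.range M, (‖coeff C.dom C.hol α‖ ^ 2 * (b₁ - a₂)) := by
          rw [Finset.sum_const, Finset.card_range, nsmul_eq_mul]
      _ ≤ _ := Finset.sum_le_sum fun s _ => hN s
  linarith

/-- uniqueness of Fourier coefficients for continuous functions on the torus -/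
theorem fourier_unique {Φ : Tor n → ℂ} (hΦ : Continuous Φ)
    (h : ∀ β : Fin n → ℤ, ∫ t, UnitAddTorus.mFourier β t * Φ t ∂(tm n) = 0) : Φ = 0 := by
  set L : C(Tor n, ℂ) →ₗ[ℂ] ℂ :=
    { toFun := fun φ => ∫ t, φ t * Φ t ∂(tm n)
      map_add' := by
        intro φ ψ
        rw [← integral_add]
        · refine integral_congr_ae (Eventually.of_forall fun t => ?_)
          simp only [ContinuousMap.add_apply]
          ring
        · exact (φ.continuous.mul hΦ).integrable_of_hasCompactSupport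
            (HasCompactSupport.of_compactSpace _)
        · exact (ψ.continuous.mul hΦ).integrable_of_hasCompactSupport
            (HasCompactSupport.of_compactSpace _)
      map_smul' := by
        intro c φ
        rw [RingHom.id_apply, smul_eq_mul, ← integral_const_mul]
        refine integral_congr_ae (Eventually.of_forall fun t => ?_)
        simp only [ContinuousMap.smul_apply, smul_eq_mul]
        ring } with hL
  obtain ⟨M, hM⟩ := (isCompact_univ (X := Tor n)).exists_bound_of_continuousOn hΦ.continuousOn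
  have hLc : Continuous L := by
    have : ∀ φ, ‖L φ‖ ≤ M * ‖φ‖ := by
      intro φ
      have h1 := norm_integral_le_of_norm_le_const (μ := tm n) (C := M * ‖φ‖)
        (f := fun t => φ t * Φ t) (Eventually.of_forall fun t => by
          rw [norm_mul, mul_comm]
          have hM0 : 0 ≤ M := (norm_nonneg _).trans (hM t (mem_univ _))
          exact mul_le_mul (hM t (mem_univ _)) (φ.norm_coe_le_norm t) (norm_nonneg _) hM0)
      rw [probReal_univ, mul_one] at h1
      exact h1
    exact (L.mkContinuous M this).continuous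
  have hker : (Submodule.span ℂ (range (UnitAddTorus.mFourier (d := Fin n)))).topologicalClosure ≤
      LinearMap.ker L := by
    apply Submodule.topologicalClosure_minimal
    · rw [Submodule.span_le]
      rintro _ ⟨β, rfl⟩
      exact h β
    · exact isClosed_singleton.preimage hLc
  rw [UnitAddTorus.span_mFourier_closure_eq_top] at hker
  have h2 : L (star ⟨Φ, hΦ⟩) = 0 := hker Submodule.mem_top
  have h3 : ∫ t, ‖Φ t‖ ^ 2 ∂(tm n) = 0 := by
    have h4 : ∫ t, ((‖Φ t‖ ^ 2 : ℝ) : ℂ) ∂(tm n) = 0 := by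
      rw [← h2, hL]
      simp only [LinearMap.coe_mk, AddHom.coe_mk]
      refine integral_congr_ae (Eventually.of_forall fun t => ?_)
      simp only [ContinuousMap.star_apply, ContinuousMap.coe_mk]
      rw [← Complex.normSq_eq_norm_sq, Complex.normSq_eq_conj_mul_self]
      rfl
    rw [integral_complex_ofReal] at h4
    exact_mod_cast h4
  have hc : Continuous fun t => ‖Φ t‖ ^ 2 := hΦ.norm.pow 2
  have hint : Integrable (fun t => ‖Φ t‖ ^ 2) (tm n) :=
    hc.integrable_of_hasCompactSupport (HasCompactSupport.of_compactSpace _)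
  funext t
  by_contra hne
  have h6 : 0 < ∫ t, ‖Φ t‖ ^ 2 ∂(tm n) :=
    hc.integral_pos_of_hasCompactSupport_nonneg_nonzero (x := t)
      (HasCompactSupport.of_compactSpace _) (fun t => by positivity) (by
        have : 0 < ‖Φ t‖ := norm_pos_iff.2 hne
        positivity)
  linarith

theorem Ctx.constant (C : Ctx Ω f T) (hn : 2 ≤ n) (hHS : IsHilbertSchmidt T) :
    ∃ c : ℂ, ∀ z ∈ Ω, f z = c := by
  refine ⟨coeff C.dom C.hol 0, ?_⟩
  have hstar : ∀ z ∈ Ω, (∀ i, z i ≠ 0) → f z = coeff C.dom C.hol 0 := by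
    intro z hz hz0
    have hcont : Continuous fun t : Tor n => f (act t z) :=
      C.hol.continuousOn.comp_continuous (continuous_act_left z) (fun t => act_mem C.dom t hz)
    have hint : Integrable (fun t : Tor n => f (act t z)) (tm n) :=
      hcont.integrable_of_hasCompactSupport (HasCompactSupport.of_compactSpace _)
    have h1 := fourier_unique (Φ := fun t => f (act t z) - comp 0 f z)
      (hcont.sub continuous_const) (by
      intro β
      have hint2 : Integrable (fun t : Tor n => UnitAddTorus.mFourier β t * f (act t z))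
          (tm n) :=
        ((UnitAddTorus.mFourier β).continuous.mul hcont).integrable_of_hasCompactSupport
          (HasCompactSupport.of_compactSpace _)
      have hint3 : Integrable (fun t : Tor n => UnitAddTorus.mFourier β t * comp 0 f z)
          (tm n) :=
        ((UnitAddTorus.mFourier β).continuous.mul
          continuous_const).integrable_of_hasCompactSupport
          (HasCompactSupport.of_compactSpace _)
      simp_rw [mul_sub]
      rw [integral_sub hint2 hint3, integral_mul_const]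
      have e1 : ∫ t, UnitAddTorus.mFourier β t * f (act t z) ∂(tm n) = comp (-β) f z := by
        rw [comp, neg_neg]
      rw [e1]
      by_cases hβ : β = 0
      · subst hβ
        rw [UnitAddTorus.mFourier_zero, neg_zero]
        simp
      · rw [integral_mFourier hβ, zero_mul, sub_zero, coeff_spec C.dom C.hol (-β) hz hz0,
          C.coeff_zero hn hHS (neg_ne_zero.2 hβ), zero_mul])
    have h2 := congrFun h1 0
    simp only [act_zero, Pi.zero_apply] at h2
    rw [sub_eq_zero] at h2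
    rw [h2, coeff_spec C.dom C.hol 0 hz hz0, mono_zero, mul_one]
  intro z hz
  -- density
  have hcl : z ∈ closure (Ω ∩ {z : Fin n → ℂ | ∀ i, z i ≠ 0}) := by
    have := dense_star.open_subset_closure_inter C.dom.isOpen hz
    exact this
  have hcont : ContinuousWithinAt f (Ω ∩ {z : Fin n → ℂ | ∀ i, z i ≠ 0}) z :=
    (C.hol.continuousOn z hz).mono inter_subset_left
  have hmem := hcont.mem_closure_image hcl
  have hsub : f '' (Ω ∩ {z : Fin n → ℂ | ∀ i, z i ≠ 0}) ⊆ {coeff C.dom C.hol 0} := by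
    rintro _ ⟨w, ⟨hw1, hw2⟩, rfl⟩
    exact hstar w hw1 hw2
  have := closure_mono hsub hmem
  rwa [closure_singleton, mem_singleton_iff] at this

theorem hankel_eq_zero_of_const (hΩm : MeasurableSet Ω) {c : ℂ} (hc : ∀ z ∈ Ω, f z = c)
    (u : bergman Ω) (hu : u ∈ hankelDomain Ω f) : hankel Ω f u hu = 0 := by
  have h1 : MemLp.toLp (fun z => conj (f z) * (u : L2 Ω) z) hu = conj c • (u : L2 Ω) := by
    apply Lp.ext
    filter_upwards [MemLp.coeFn_toLp hu, Lp.coeFn_smul (conj c) (u : L2 Ω),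
      ae_restrict_mem hΩm] with z h1 h2 h3
    rw [h1, h2, Pi.smul_apply, hc z h3, smul_eq_mul]
  rw [hankel, h1]
  have h2 : conj c • (u : L2 Ω) ∈ (bergman Ω)ᗮᗮ :=
    Submodule.le_orthogonal_orthogonal _ ((bergman Ω).smul_mem _ u.2)
  exact (Submodule.starProjection_apply_eq_zero_iff _).2 h2

end Pool.Agent.TH184.HS
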