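import Mathlib

set_option autoImplicit false

open MeasureTheory Set Filter
open scoped ComplexConjugate ENNReal Topology

namespace Pool.Agent.TH184.HS.S

/-- The rotation of `ℂ^n` by the angles `θ_1, …, θ_n`. -/
noncomputable def rotate {n : ℕ} (θ : Fin n → ℝ) (z : Fin n → ℂ) : Fin n → ℂ :=
  fun i => Complex.exp (θ i * Complex.I) * z i

/-- A Reinhardt domain: a nonempty connected open set invariant under all rotations of the
coordinates. -/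
structure IsReinhardtDomain {n : ℕ} (Ω : Set (Fin n → ℂ)) : Prop where
  isOpen : IsOpen Ω
  isConnected : IsConnected Ω
  rotate_mem : ∀ (θ : Fin n → ℝ) (z : Fin n → ℂ), z ∈ Ω → rotate θ z ∈ Ω

/-- `g` is holomorphic on `Ω`. -/
def Hol {n : ℕ} (Ω : Set (Fin n → ℂ)) (g : (Fin n → ℂ) → ℂ) : Prop := DifferentiableOn ℂ g Ω

/-- Lebesgue measure on `Ω`. -/
noncomputable def vol {n : ℕ} (Ω : Set (Fin n → ℂ)) : Measure (Fin n → ℂ) := volume.restrict Ω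

/-- The Hilbert space `L²(Ω)`. -/
def L2 {n : ℕ} (Ω : Set (Fin n → ℂ)) : Type := Lp ℂ 2 (vol Ω)

/-- The norm of `L²(Ω)` (Mathlib's). -/
noncomputable instance instNormedL2 {n : ℕ} (Ω : Set (Fin n → ℂ)) : NormedAddCommGroup (L2 Ω) :=
  Lp.instNormedAddCommGroup (p := 2) (μ := vol Ω) (E := ℂ)

/-- The inner product of `L²(Ω)` (Mathlib's). -/
noncomputable instance instInnerL2 {n : ℕ} (Ω : Set (Fin n → ℂ)) : InnerProductSpace ℂ (L2 Ω) :=
  MeasureTheory.L2.innerProductSpace (μ := vol Ω) (E := ℂ) (𝕜 := ℂ)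

instance instCompleteL2 {n : ℕ} (Ω : Set (Fin n → ℂ)) : CompleteSpace (L2 Ω) :=
  Lp.instCompleteSpace (p := 2) (μ := vol Ω) (E := ℂ)

/-- A function representing an element of `L²(Ω)`. -/
noncomputable def rep {n : ℕ} {Ω : Set (Fin n → ℂ)} (u : L2 Ω) : (Fin n → ℂ) → ℂ :=
  AEEqFun.cast (Subtype.val u)

/-- `h` is square integrable on `Ω`. -/
def SqInt {n : ℕ} (Ω : Set (Fin n → ℂ)) (h : (Fin n → ℂ) → ℂ) : Prop := MemLp h 2 (vol Ω)

/-- The class in `L²(Ω)` of a square integrable function. -/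
noncomputable def cls {n : ℕ} {Ω : Set (Fin n → ℂ)} (h : (Fin n → ℂ) → ℂ) (hh : SqInt Ω h) :
    L2 Ω := MemLp.toLp h hh

/-- `u` is the class of a holomorphic function. -/
def IsHolClass {n : ℕ} (Ω : Set (Fin n → ℂ)) (u : L2 Ω) : Prop :=
  ∃ g : (Fin n → ℂ) → ℂ, Hol Ω g ∧ rep u =ᵐ[vol Ω] g

theorem isHolClass_add {n : ℕ} {Ω : Set (Fin n → ℂ)} {u v : L2 Ω} (hu : IsHolClass Ω u)
    (hv : IsHolClass Ω v) : IsHolClass Ω (u + v) := by
  obtain ⟨g, hg, hug⟩ := hu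
  obtain ⟨h, hh, hvh⟩ := hv
  refine ⟨fun z => g z + h z, DifferentiableOn.add hg hh, ?_⟩
  filter_upwards [Lp.coeFn_add (show Lp ℂ 2 (vol Ω) from u) (show Lp ℂ 2 (vol Ω) from v), hug,
    hvh] with z h1 h2 h3
  have h1' : rep (u + v) z = rep u z + rep v z := h1
  rw [h1', h2, h3]

theorem isHolClass_zero {n : ℕ} (Ω : Set (Fin n → ℂ)) : IsHolClass Ω (0 : L2 Ω) :=
  ⟨fun _ => 0, differentiableOn_const 0, Lp.coeFn_zero ℂ 2 (vol Ω)⟩

theorem isHolClass_smul {n : ℕ} {Ω : Set (Fin n → ℂ)} (c : ℂ) {u : L2 Ω}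
    (hu : IsHolClass Ω u) : IsHolClass Ω (c • u) := by
  obtain ⟨g, hg, hug⟩ := hu
  refine ⟨fun z => c • g z, DifferentiableOn.const_smul hg c, ?_⟩
  filter_upwards [Lp.coeFn_smul c (show Lp ℂ 2 (vol Ω) from u), hug] with z h1 h2
  have h1' : rep (c • u) z = c • rep u z := h1
  rw [h1', h2]

/-- The Bergman space `A²(Ω)`: the classes in `L²(Ω)` of holomorphic functions. -/
noncomputable def bergman {n : ℕ} (Ω : Set (Fin n → ℂ)) : Submodule ℂ (L2 Ω) where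
  carrier := {u | IsHolClass Ω u}
  add_mem' := isHolClass_add
  zero_mem' := isHolClass_zero Ω
  smul_mem' := fun c _ hu => isHolClass_smul c hu

/-- The Bergman space as a type. -/
abbrev A2 {n : ℕ} (Ω : Set (Fin n → ℂ)) : Type := bergman Ω

/-- The product `\bar f u`. -/
noncomputable def conjMul {n : ℕ} {Ω : Set (Fin n → ℂ)} (f : (Fin n → ℂ) → ℂ) (u : L2 Ω) :
    (Fin n → ℂ) → ℂ := fun z => conj (f z) * rep u z

/-- The domain of `H_{\bar f}`: the `u ∈ A²(Ω)` with `\bar f u ∈ L²(Ω)`. -/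
def hankelDomain {n : ℕ} (Ω : Set (Fin n → ℂ)) (f : (Fin n → ℂ) → ℂ) : Set (A2 Ω) :=
  {u | SqInt Ω (conjMul f (u : L2 Ω))}

/-- `I - P`, where `P` is the Bergman projection of `L²(Ω)` onto `A²(Ω)`: the orthogonal projection
onto the orthogonal complement of `A²(Ω)`. -/
noncomputable def compProj {n : ℕ} (Ω : Set (Fin n → ℂ)) : L2 Ω →L[ℂ] L2 Ω :=
  (bergman Ω)ᗮ.starProjection

/-- `H_{\bar f} u = (I - P)(\bar f u)`. -/
noncomputable def hankel {n : ℕ} (Ω : Set (Fin n → ℂ)) (f : (Fin n → ℂ) → ℂ) (u : A2 Ω)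
    (hu : u ∈ hankelDomain Ω f) : L2 Ω :=
  compProj Ω (cls (conjMul f (u : L2 Ω)) hu)

/-- `‖T u‖²`. -/
noncomputable def normSq {n : ℕ} {Ω : Set (Fin n → ℂ)} (T : A2 Ω →L[ℂ] L2 Ω) (u : A2 Ω) : ℝ :=
  ‖T u‖ ^ 2

/-- `T` is a Hilbert-Schmidt operator: `∑ ‖T e_k‖² < ∞` for an orthonormal (Hilbert) basis
`(e_k)`. -/
def IsHilbertSchmidt {n : ℕ} {Ω : Set (Fin n → ℂ)} (T : A2 Ω →L[ℂ] L2 Ω) : Prop :=
  ∃ (ι : Type) (e : HilbertBasis ι ℂ (A2 Ω)), Summable fun k => normSq T (e k)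

/-- `T` extends `H_{\bar f}`. -/
def Extends {n : ℕ} {Ω : Set (Fin n → ℂ)} (T : A2 Ω →L[ℂ] L2 Ω) (f : (Fin n → ℂ) → ℂ) : Prop :=
  ∀ (u : A2 Ω) (hu : u ∈ hankelDomain Ω f), T u = hankel Ω f u hu

/-- `H_{\bar f}` is Hilbert-Schmidt: its domain is dense in `A²(Ω)` and it extends to a
Hilbert-Schmidt operator `A²(Ω) → L²(Ω)`. -/
def HankelHS {n : ℕ} (Ω : Set (Fin n → ℂ)) (f : (Fin n → ℂ) → ℂ) : Prop :=
  Dense (hankelDomain Ω f) ∧ ∃ T : A2 Ω →L[ℂ] L2 Ω, Extends T f ∧ IsHilbertSchmidt T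

/-- `H_{\bar f} = 0`. -/
def HankelZero {n : ℕ} (Ω : Set (Fin n → ℂ)) (f : (Fin n → ℂ) → ℂ) : Prop :=
  ∀ (u : A2 Ω) (hu : u ∈ hankelDomain Ω f), hankel Ω f u hu = 0

end Pool.Agent.TH184.HS.S
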