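import Mathlib
import Pool.Agent.TH184.HS.Stmt
import Pool.Agent.TH184.HS.Final

set_option autoImplicit false

open MeasureTheory Set Filter
open scoped ComplexConjugate ENNReal Topology

namespace Pool.Agent.TH184.HS

variable {n : ℕ} {Ω : Set (Fin n → ℂ)} {f : (Fin n → ℂ) → ℂ}

theorem dom_of (h : S.IsReinhardtDomain Ω) : IsReinhardtDomain Ω :=
  ⟨h.isOpen, h.isConnected, h.rotate_mem⟩

theorem hs_of (h : S.HankelHS Ω f) : HankelHS Ω f := by
  obtain ⟨hd, T, hT, ι, e, hs⟩ := h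
  exact ⟨hd, T, hT, ι, e, hs⟩

theorem zero_of (h : ∀ (u : bergman Ω) (hu : u ∈ hankelDomain Ω f), hankel Ω f u hu = 0) :
    S.HankelZero Ω f := h

end Pool.Agent.TH184.HS
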